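import Mathlib

/-!
# Self-avoiding walks on `ℤ^d`: finiteness, submultiplicativity, the growth constant
-/

set_option autoImplicit false

namespace Pool.Agent.TH262.FI

open Finset Filter Topology
open scoped Classical

/-- `n`-step self-avoiding walks on `ℤ^d` from the origin -/
def IsSAW (d n : ℕ) (ω : Fin (n + 1) → Fin d → ℤ) : Prop :=
  ω 0 = 0 ∧ (∀ i : Fin n, ∑ k, |ω i.succ k - ω i.castSucc k| = 1) ∧ Function.Injective ω

variable {d n : ℕ}

lemma coord_le {ω : Fin (n + 1) → Fin d → ℤ} (h : IsSAW d n ω) (i : Fin (n + 1)) :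
    ∀ k, |ω i k| ≤ (i : ℕ) := by
  induction i using Fin.induction with
  | zero => intro k; simp [h.1]
  | succ i ih =>
    intro k
    have h1 := ih k
    have h2 : |ω i.succ k - ω i.castSucc k| ≤ 1 := by
      rw [← h.2.1 i]
      exact Finset.single_le_sum (f := fun k => |ω i.succ k - ω i.castSucc k|)
        (fun k _ => abs_nonneg _) (Finset.mem_univ k)
    have h3 := abs_add_le (ω i.succ k - ω i.castSucc k) (ω i.castSucc k)
    rw [sub_add_cancel] at h3
    simp only [Fin.val_castSucc] at h1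
    rw [Fin.val_succ]
    push_cast
    linarith

lemma finite_saw (d n : ℕ) : {ω : Fin (n + 1) → Fin d → ℤ | IsSAW d n ω}.Finite := by
  refine Set.Finite.subset (Set.Finite.pi' fun _ : Fin (n + 1) => Set.Finite.pi'
    fun _ : Fin d => Set.finite_Icc (-(n : ℤ)) n) ?_
  intro ω hω i k
  have h1 := coord_le hω i k
  have h2 : ((i : ℕ) : ℤ) ≤ n := by exact_mod_cast Nat.lt_succ_iff.1 i.2
  have h3 := abs_le.1 h1
  exact ⟨by linarith [h3.1], by linarith [h3.2]⟩

/-- the finite set of walks -/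
noncomputable def S (d n : ℕ) : Finset (Fin (n + 1) → Fin d → ℤ) := (finite_saw d n).toFinset

lemma mem_S {ω : Fin (n + 1) → Fin d → ℤ} : ω ∈ S d n ↔ IsSAW d n ω := by
  unfold S
  rw [Set.Finite.mem_toFinset]
  rfl

/-- number of walks -/
noncomputable def C (d n : ℕ) : ℕ := {ω | IsSAW d n ω}.ncard

/-- number of walks to `z` -/
noncomputable def Cz (d n : ℕ) (z : Fin d → ℤ) : ℕ := {ω | IsSAW d n ω ∧ ω (Fin.last n) = z}.ncard

lemma C_eq (d n : ℕ) : C d n = (S d n).card := by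
  unfold C
  rw [← Set.ncard_coe_finset]
  congr 1
  ext ω
  rw [Finset.mem_coe, mem_S]
  rfl

lemma Cz_eq (d n : ℕ) (z : Fin d → ℤ) :
    Cz d n z = ((S d n).filter (fun ω => ω (Fin.last n) = z)).card := by
  unfold Cz
  rw [← Set.ncard_coe_finset]
  congr 1
  ext ω
  rw [Finset.mem_coe, Finset.mem_filter, mem_S]
  rfl

/-- the straight walk -/
lemma C_pos (hd : 1 ≤ d) (n : ℕ) : 1 ≤ C d n := by
  rw [C_eq]
  apply Finset.card_pos.2
  let k0 : Fin d := ⟨0, hd⟩
  refine ⟨fun i k => if k = k0 then ((i : ℕ) : ℤ) else 0, mem_S.2 ⟨?_, ?_, ?_⟩⟩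
  · funext k
    simp
  · intro i
    rw [Finset.sum_eq_single k0]
    · simp
    · intro k _ hk
      simp [hk]
    · intro h; exact absurd (Finset.mem_univ _) h
  · intro i j hij
    have h := congrFun hij k0
    simp only [if_true] at h
    exact Fin.ext (by exact_mod_cast h)

/-- first part of a walk -/
def pre (m n : ℕ) (ω : Fin (m + n + 1) → Fin d → ℤ) : Fin (m + 1) → Fin d → ℤ :=
  fun i => ω ⟨i, by omega⟩

/-- second part of a walk -/
def suf (m n : ℕ) (ω : Fin (m + n + 1) → Fin d → ℤ) : Fin (n + 1) → Fin d → ℤ :=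
  fun i => ω ⟨m + i, by omega⟩ - ω ⟨m, by omega⟩

lemma pre_saw {m n : ℕ} {ω : Fin (m + n + 1) → Fin d → ℤ} (h : IsSAW d (m + n) ω) :
    IsSAW d m (pre m n ω) := by
  refine ⟨?_, ?_, ?_⟩
  · have := h.1
    unfold pre
    exact this
  · intro i
    have := h.2.1 ⟨i, by omega⟩
    exact this
  · intro i j hij
    have := h.2.2 hij
    simp only [Fin.mk.injEq] at this
    exact Fin.ext this

lemma suf_saw {m n : ℕ} {ω : Fin (m + n + 1) → Fin d → ℤ} (h : IsSAW d (m + n) ω) :
    IsSAW d n (suf m n ω) := by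
  refine ⟨?_, ?_, ?_⟩
  · unfold suf
    simp
  · intro i
    have := h.2.1 ⟨m + i, by omega⟩
    rw [← this]
    refine Finset.sum_congr rfl (fun k _ => ?_)
    congr 1
    simp only [suf, Pi.sub_apply, Fin.val_succ, Fin.val_castSucc, Fin.succ_mk, Fin.castSucc_mk]
    simp only [add_assoc]
    ring
  · intro i j hij
    unfold suf at hij
    have h1 := sub_left_injective hij
    have := h.2.2 h1
    simp only [Fin.mk.injEq] at this
    exact Fin.ext (by omega)

lemma cut_inj {m n : ℕ} {ω ω' : Fin (m + n + 1) → Fin d → ℤ} (h1 : pre m n ω = pre m n ω')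
    (h2 : suf m n ω = suf m n ω') : ω = ω' := by
  funext i
  have hm : ω ⟨m, by omega⟩ = ω' ⟨m, by omega⟩ := congrFun h1 ⟨m, by omega⟩
  by_cases hi : (i : ℕ) ≤ m
  · exact congrFun h1 ⟨i, by omega⟩
  · have h3 := congrFun h2 ⟨(i : ℕ) - m, by omega⟩
    unfold suf at h3
    have e : (⟨m + ((i : ℕ) - m), by omega⟩ : Fin (m + n + 1)) = i := Fin.ext (by simp; omega)
    simp only at h3
    rw [hm, e] at h3
    exact sub_left_injective h3

lemma C_mul (d m n : ℕ) : C d (m + n) ≤ C d m * C d n := by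
  rw [C_eq, C_eq, C_eq, ← Finset.card_product]
  apply Finset.card_le_card_of_injOn (fun ω => (pre m n ω, suf m n ω))
  · intro ω hω
    rw [Finset.mem_coe, mem_S] at hω
    rw [Finset.mem_coe, Finset.mem_product]
    exact ⟨mem_S.2 (pre_saw hω), mem_S.2 (suf_saw hω)⟩
  · intro ω _ ω' _ h
    exact cut_inj (congrArg Prod.fst h) (congrArg Prod.snd h)

lemma C_pow (d n k : ℕ) : C d (k * n) ≤ C d n ^ k * C d 0 := by
  induction k with
  | zero => simp
  | succ k ih =>
    calc C d ((k + 1) * n) = C d (k * n + n) := by rw [add_mul, one_mul]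
      _ ≤ C d (k * n) * C d n := C_mul _ _ _
      _ ≤ (C d n ^ k * C d 0) * C d n := Nat.mul_le_mul_right _ ih
      _ = _ := by ring

lemma C_zero (d : ℕ) : C d 0 ≤ 1 := by
  rw [C_eq]
  apply Finset.card_le_one.2
  intro ω hω ω' hω'
  rw [mem_S] at hω hω'
  funext i
  have : i = 0 := Fin.ext (by simp)
  rw [this, hω.1, hω'.1]

/-- the growth constant is a lower bound -/
lemma mu_pow_le (hd : 1 ≤ d) {μ : ℝ}
    (hμ : Tendsto (fun n : ℕ => (C d n : ℝ) ^ (1 / (n : ℝ))) atTop (𝓝 μ)) (n : ℕ) :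
    μ ^ n ≤ C d n := by
  rcases Nat.eq_zero_or_pos n with rfl | hn
  · have := C_pos hd 0
    simp only [pow_zero]
    exact_mod_cast this
  have hμ0 : 0 ≤ μ := ge_of_tendsto' hμ fun n => by positivity
  have hn0 : (0 : ℝ) < n := by exact_mod_cast hn
  have h1 : Tendsto (fun k : ℕ => k * n) atTop atTop :=
    tendsto_id.atTop_mul_const' hn
  have h2 := hμ.comp h1
  have h3 : μ ≤ (C d n : ℝ) ^ (1 / (n : ℝ)) := by
    refine le_of_tendsto h2 ?_
    filter_upwards [eventually_ge_atTop 1] with k hk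
    simp only [Function.comp]
    have hk0 : (0 : ℝ) < k := by exact_mod_cast hk
    have h4 : (C d (k * n) : ℝ) ≤ (C d n : ℝ) ^ k := by
      have h5 : C d (k * n) ≤ C d n ^ k * 1 := (C_pow d n k).trans (Nat.mul_le_mul_left _ (C_zero d))
      rw [mul_one] at h5
      exact_mod_cast h5
    calc (C d (k * n) : ℝ) ^ (1 / ((k * n : ℕ) : ℝ)) ≤ ((C d n : ℝ) ^ k) ^ (1 / ((k * n : ℕ) : ℝ)) :=
          Real.rpow_le_rpow (by positivity) h4 (by positivity)
      _ = (C d n : ℝ) ^ (1 / (n : ℝ)) := by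
          rw [← Real.rpow_natCast, ← Real.rpow_mul (by positivity)]
          congr 1
          push_cast
          field_simp
  calc μ ^ n ≤ ((C d n : ℝ) ^ (1 / (n : ℝ))) ^ n := pow_le_pow_left₀ hμ0 h3 n
    _ = C d n := by
        rw [← Real.rpow_natCast, ← Real.rpow_mul (by positivity), one_div,
          inv_mul_cancel₀ hn0.ne', Real.rpow_one]

lemma one_le_mu (hd : 1 ≤ d) {μ : ℝ}
    (hμ : Tendsto (fun n : ℕ => (C d n : ℝ) ^ (1 / (n : ℝ))) atTop (𝓝 μ)) : 1 ≤ μ :=
  ge_of_tendsto' hμ fun n => Real.one_le_rpow (by exact_mod_cast C_pos hd n) (by positivity)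

end Pool.Agent.TH262.FI
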