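import Pool.Agent.TH262.FI.Main

/-!
# Fisher's inequality: the core
-/

set_option autoImplicit false

namespace Pool.Agent.TH262.FI

open Finset Filter Topology
open scoped Classical

variable {d : ℕ}

/-- the inequality with room -/
theorem core_eps (hd : 1 ≤ d) {μ : ℝ}
    (hμ : Tendsto (fun n : ℕ => (C d n : ℝ) ^ (1 / (n : ℝ))) atTop (𝓝 μ))
    (hs : ∀ z : Fin d → ℤ, Summable fun n : ℕ => (Cz d n z : ℝ) / μ ^ n)
    {p θ θ' δ β : ℝ} (hp : 0 < p) (hθθ : θ' < θ) (hβ : 0 ≤ β)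
    (hν : ∀ᶠ n : ℕ in atTop, mom d p n ≤ (n : ℝ) ^ (p * θ'))
    (hη : ∀ᶠ z : Fin d → ℤ in cofinite, G d μ z ≤ nrm z ^ (δ - d))
    (hγ : ∀ᶠ n : ℕ in atTop, (n : ℝ) ^ β ≤ C d n / μ ^ n) :
    1 + β ≤ θ * max 0 δ := by
  have hμ1 := one_le_mu hd hμ
  have hμ0 : 0 < μ := by linarith
  -- the exponent of the moments is nonnegative
  have hθ'0 : 0 ≤ θ' := by
    obtain ⟨n, hn, hn2⟩ := (hν.and (eventually_ge_atTop 2)).exists
    have h1 := one_le_mom hd hp (show 1 ≤ n by omega)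
    have h2 := h1.trans hn
    by_contra hcon
    push Not at hcon
    have h3 : (n : ℝ) ^ (p * θ') < 1 :=
      Real.rpow_lt_one_of_one_lt_of_neg (by exact_mod_cast (by omega : 1 < n))
        (mul_neg_of_pos_of_neg hp hcon)
    linarith
  have hθ0 : 0 < θ := by linarith
  obtain ⟨A, c, hc, hball⟩ := ball_sum hμ0.le hη
  have e0 : (d : ℝ) + (δ - d) = δ := by ring
  rw [e0] at hball
  obtain ⟨M, hM⟩ : ∃ M : ℝ, M = (2 : ℝ) ^ (max 0 δ) := ⟨_, rfl⟩
  have hM1 : 1 ≤ M := by rw [hM]; exact Real.one_le_rpow (by norm_num) (le_max_left _ _)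
  rw [← hM] at hball
  obtain ⟨n1, hn1⟩ := Filter.eventually_atTop.1 (markov hd hp hθθ hν)
  obtain ⟨n2, hn2⟩ := Filter.eventually_atTop.1 hγ
  obtain ⟨y, hy⟩ : ∃ y : ℝ, y = (2 : ℝ) ^ (1 / θ) := ⟨_, rfl⟩
  have hy1 : 1 < y := by rw [hy]; exact Real.one_lt_rpow (by norm_num) (by positivity)
  have hy0 : 0 < y := by linarith
  have hyθ : y ^ θ = 2 := by
    rw [hy, ← Real.rpow_mul (by norm_num), one_div, inv_mul_cancel₀ hθ0.ne', Real.rpow_one]
  have hyt : Tendsto (fun K : ℕ => y ^ K) atTop atTop := tendsto_pow_atTop_atTop_of_one_lt hy1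
  have hlarge := hyt.eventually_ge_atTop (2 * ((n1 : ℝ) + n2 + 3) + 2)
  have hmain : ∀ᶠ K : ℕ in atTop, (1 / 4 : ℝ) ^ (1 + β) * (y ^ (1 + β)) ^ K ≤
      2 * A + 2 * c * ((K : ℝ) + 1) * M ^ K := by
    filter_upwards [hlarge] with K hK
    obtain ⟨N, hN⟩ : ∃ N : ℕ, N = ⌊y ^ K⌋₊ := ⟨_, rfl⟩
    have hNle : (N : ℝ) ≤ y ^ K := by rw [hN]; exact Nat.floor_le (by positivity)
    have hNgt : y ^ K < N + 1 := by rw [hN]; exact Nat.lt_floor_add_one _
    have hNbig : 2 * (n1 + n2 + 3) ≤ N := by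
      have h1 : (2 * ((n1 : ℝ) + n2 + 3)) < N := by linarith
      have h2 : ((2 * (n1 + n2 + 3) : ℕ) : ℝ) < N := by push_cast; exact h1
      exact_mod_cast h2.le
    have hNR : y ^ K / 2 ≤ N := by
      have h1 : (0 : ℝ) ≤ n1 := Nat.cast_nonneg _
      have h2 : (0 : ℝ) ≤ n2 := Nat.cast_nonneg _
      linarith
    obtain ⟨I, hI⟩ : ∃ I : Finset ℕ, I = Finset.Ioc (N / 2) N := ⟨_, rfl⟩
    have hImem : ∀ n ∈ I, n1 ≤ n ∧ n2 ≤ n ∧ n ≤ N ∧ (N : ℝ) / 2 ≤ n := by
      intro n hn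
      rw [hI, Finset.mem_Ioc] at hn
      refine ⟨by omega, by omega, hn.2, ?_⟩
      have h1 : N ≤ 2 * n := by omega
      have h2 : (N : ℝ) ≤ 2 * n := by exact_mod_cast h1
      linarith
    have hIcard : (N : ℝ) / 2 ≤ I.card := by
      rw [hI, Nat.card_Ioc]
      have h1 : N ≤ 2 * (N - N / 2) := by omega
      have h2 : (N : ℝ) ≤ 2 * ((N - N / 2 : ℕ) : ℝ) := by exact_mod_cast h1
      linarith
    have hup : ∑ n ∈ I, (C d n : ℝ) / μ ^ n ≤ 2 * A + 2 * c * ((K : ℝ) + 1) * M ^ K := by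
      calc ∑ n ∈ I, (C d n : ℝ) / μ ^ n
          ≤ ∑ n ∈ I, 2 * ((∑ z ∈ Bs d (2 ^ K), (Cz d n z : ℝ)) / μ ^ n) := by
            refine Finset.sum_le_sum fun n hn => ?_
            obtain ⟨h1, -, h3, -⟩ := hImem n hn
            rw [← mul_div_assoc]
            apply div_le_div_of_nonneg_right _ (by positivity)
            refine (hn1 n h1).trans ?_
            apply mul_le_mul_of_nonneg_left _ (by norm_num)
            apply ball_count
            push_cast
            calc (n : ℝ) ^ θ ≤ (y ^ K) ^ θ :=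
                  Real.rpow_le_rpow (Nat.cast_nonneg _)
                    (le_trans (by exact_mod_cast h3) hNle) hθ0.le
              _ = (y ^ θ) ^ K := by
                  rw [← Real.rpow_natCast, ← Real.rpow_natCast, ← Real.rpow_mul hy0.le,
                    ← Real.rpow_mul hy0.le, mul_comm]
              _ = 2 ^ K := by rw [hyθ]
        _ = 2 * ∑ n ∈ I, (∑ z ∈ Bs d (2 ^ K), (Cz d n z : ℝ)) / μ ^ n := by rw [Finset.mul_sum]
        _ ≤ 2 * ∑ z ∈ Bs d (2 ^ K), G d μ z := by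
            have := exchange hμ0.le hs I (Bs d (2 ^ K))
            linarith
        _ ≤ 2 * (A + c * ((K : ℝ) + 1) * M ^ K) := by
            have := hball K
            linarith
        _ = _ := by ring
    have hN0 : 0 ≤ (N : ℝ) / 2 := by positivity
    have hlow : ((N : ℝ) / 2) ^ (1 + β) ≤ ∑ n ∈ I, (C d n : ℝ) / μ ^ n := by
      calc ((N : ℝ) / 2) ^ (1 + β) = (N : ℝ) / 2 * ((N : ℝ) / 2) ^ β := by
            rw [Real.rpow_add_of_nonneg hN0 (by norm_num) hβ, Real.rpow_one]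
        _ ≤ I.card * ((N : ℝ) / 2) ^ β := by gcongr
        _ = ∑ n ∈ I, ((N : ℝ) / 2) ^ β := by rw [Finset.sum_const, nsmul_eq_mul]
        _ ≤ _ := by
            refine Finset.sum_le_sum fun n hn => ?_
            obtain ⟨-, h2, -, h4⟩ := hImem n hn
            exact (Real.rpow_le_rpow hN0 h4 hβ).trans (hn2 n h2)
    refine le_trans ?_ (hlow.trans hup)
    calc (1 / 4 : ℝ) ^ (1 + β) * (y ^ (1 + β)) ^ K = (1 / 4 * y ^ K) ^ (1 + β) := by
          rw [Real.mul_rpow (by norm_num) (by positivity)]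
          congr 1
          rw [← Real.rpow_natCast, ← Real.rpow_natCast, ← Real.rpow_mul hy0.le,
            ← Real.rpow_mul hy0.le, mul_comm]
      _ ≤ ((N : ℝ) / 2) ^ (1 + β) := by
          apply Real.rpow_le_rpow (by positivity) _ (by linarith)
          linarith
  have hrate := rates hM1 (by positivity) hmain
  -- compare the exponents
  have e1 : y ^ (1 + β) = (2 : ℝ) ^ ((1 + β) / θ) := by
    rw [hy, ← Real.rpow_mul (by norm_num)]
    congr 1
    ring
  rw [e1, hM] at hrate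
  have h2 : (1 + β) / θ ≤ max 0 δ := by
    by_contra hcon
    push Not at hcon
    have := Real.rpow_lt_rpow_of_exponent_lt (show (1 : ℝ) < 2 by norm_num) hcon
    linarith
  rw [div_le_iff₀ hθ0] at h2
  linarith

/-- **Fisher's inequality**, in terms of one-sided bounds. -/
theorem core (hd : 1 ≤ d) {μ : ℝ}
    (hμ : Tendsto (fun n : ℕ => (C d n : ℝ) ^ (1 / (n : ℝ))) atTop (𝓝 μ))
    (hs : ∀ z : Fin d → ℤ, Summable fun n : ℕ => (Cz d n z : ℝ) / μ ^ n)
    {p ν D γ : ℝ} (hp : 0 < p)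
    (hν : ∀ ε : ℝ, 0 < ε → ∀ᶠ n : ℕ in atTop, mom d p n ≤ (n : ℝ) ^ (p * (ν + ε)))
    (hη : ∀ ε : ℝ, 0 < ε → ∀ᶠ z : Fin d → ℤ in cofinite, G d μ z ≤ nrm z ^ (D - d + ε))
    (hγ : ∀ ε : ℝ, 0 < ε → ∀ᶠ n : ℕ in atTop, (n : ℝ) ^ (γ - 1 - ε) ≤ C d n / μ ^ n) :
    1 ≤ ν * D ∧ γ ≤ ν * D := by
  have hμ1 := one_le_mu hd hμ
  have hμ0 : 0 < μ := by linarith
  have key : ∀ ε : ℝ, 0 < ε → 1 + max (γ - 1 - ε) 0 ≤ (ν + ε) * max 0 (D + ε) := by
    intro ε hε
    refine core_eps hd hμ hs hp (show ν + ε / 2 < ν + ε by linarith) (le_max_right _ _)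
      (hν (ε / 2) (by positivity)) ?_ ?_
    · filter_upwards [hη ε hε] with z hz
      have e : D + ε - d = D - d + ε := by ring
      rw [e]
      exact hz
    · filter_upwards [hγ ε hε] with n hn
      rcases le_total (γ - 1 - ε) 0 with h | h
      · rw [max_eq_right h, Real.rpow_zero, one_le_div (by positivity)]
        exact mu_pow_le hd hμ n
      · rw [max_eq_left h]
        exact hn
  have hlim : 1 + max (γ - 1) 0 ≤ ν * max 0 D := by
    have hF : Tendsto (fun ε : ℝ => 1 + max (γ - 1 - ε) 0) (𝓝[>] 0) (𝓝 (1 + max (γ - 1) 0)) := by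
      have hcont : Continuous fun ε : ℝ => 1 + max (γ - 1 - ε) 0 := by fun_prop
      have := (hcont.tendsto 0).mono_left (nhdsWithin_le_nhds (s := Set.Ioi 0))
      simpa using this
    have hG : Tendsto (fun ε : ℝ => (ν + ε) * max 0 (D + ε)) (𝓝[>] 0) (𝓝 (ν * max 0 D)) := by
      have hcont : Continuous fun ε : ℝ => (ν + ε) * max 0 (D + ε) := by fun_prop
      have := (hcont.tendsto 0).mono_left (nhdsWithin_le_nhds (s := Set.Ioi 0))
      simpa using this
    refine le_of_tendsto_of_tendsto hF hG ?_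
    filter_upwards [self_mem_nhdsWithin] with ε hε
    exact key ε hε
  have h1 : 0 ≤ max (γ - 1) 0 := le_max_right _ _
  have h2 : γ - 1 ≤ max (γ - 1) 0 := le_max_left _ _
  have hD : 0 < D := by
    by_contra hcon
    push Not at hcon
    rw [max_eq_left hcon, mul_zero] at hlim
    linarith
  rw [max_eq_right hD.le] at hlim
  exact ⟨by linarith, by linarith⟩

end Pool.Agent.TH262.FI
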