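import Pool.Agent.TH262.FI.Summ

/-!
# Fisher's inequality for exponents defined by limits
-/

set_option autoImplicit false

namespace Pool.Agent.TH262.FI

open Finset Filter Topology
open scoped Classical

variable {d : ℕ}

lemma nrm_gt_one : ∀ᶠ z : Fin d → ℤ in cofinite, 1 < nrm z := by
  rw [Filter.eventually_cofinite]
  refine (Finset.finite_toSet (Bs d 1)).subset fun z hz => ?_
  rw [Finset.mem_coe, mem_Bs]
  push_cast
  exact not_lt.1 hz

lemma pow_upper {x y s t : ℝ} (hx : 1 < x) (hy : 0 ≤ y) (h : Real.log y / Real.log x < s)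
    (hst : s ≤ t) : y ≤ x ^ t := by
  have hl : 0 < Real.log x := Real.log_pos hx
  rcases hy.eq_or_lt with h0 | h0
  · rw [← h0]; positivity
  · rw [div_lt_iff₀ hl] at h
    rw [Real.rpow_def_of_pos (by linarith)]
    calc y = Real.exp (Real.log y) := (Real.exp_log h0).symm
      _ ≤ _ := by
          apply Real.exp_le_exp.2
          nlinarith

lemma pow_lower {x y s : ℝ} (hx : 1 < x) (hy : 0 < y) (h : s < Real.log y / Real.log x) :
    x ^ s ≤ y := by
  have hl : 0 < Real.log x := Real.log_pos hx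
  rw [lt_div_iff₀ hl] at h
  rw [Real.rpow_def_of_pos (by linarith)]
  calc _ ≤ Real.exp (Real.log y) := by
          apply Real.exp_le_exp.2
          linarith
    _ = y := Real.exp_log hy

theorem final (hd : 1 ≤ d) {μ : ℝ}
    (hμ : Tendsto (fun n : ℕ => (C d n : ℝ) ^ (1 / (n : ℝ))) atTop (𝓝 μ))
    {p ν η : ℝ} (hp : 0 < p)
    (hν : Tendsto (fun n : ℕ => Real.log (mom d p n) / Real.log n) atTop (𝓝 (p * ν)))
    (hs : ∀ᶠ z : Fin d → ℤ in cofinite, Summable fun n : ℕ => (Cz d n z : ℝ) / μ ^ n)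
    (hη : Tendsto (fun z : Fin d → ℤ => Real.log (G d μ z) / Real.log (nrm z)) cofinite
      (𝓝 (-((d : ℝ) - 2 + η)))) :
    1 ≤ ν * (2 - η) ∧ ∀ γ : ℝ,
      Tendsto (fun n : ℕ => Real.log ((C d n : ℝ) / μ ^ n) / Real.log n) atTop (𝓝 (γ - 1)) →
      γ ≤ ν * (2 - η) := by
  have hμ1 := one_le_mu hd hμ
  have hμ0 : 0 < μ := by linarith
  have hs' := summable_all hμ0 hs
  have hν' : ∀ ε : ℝ, 0 < ε → ∀ᶠ n : ℕ in atTop, mom d p n ≤ (n : ℝ) ^ (p * (ν + ε)) := by
    intro ε hε
    have h1 := hν.eventually (gt_mem_nhds (show p * ν < p * (ν + ε) by nlinarith))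
    filter_upwards [h1, eventually_ge_atTop 2] with n h1 hn
    have hm := one_le_mom hd hp (show 1 ≤ n by omega)
    exact pow_upper (by exact_mod_cast (by omega : 1 < n)) (by linarith) h1 le_rfl
  have hη' : ∀ ε : ℝ, 0 < ε → ∀ᶠ z : Fin d → ℤ in cofinite,
      G d μ z ≤ nrm z ^ ((2 - η) - d + ε) := by
    intro ε hε
    have h1 := hη.eventually (gt_mem_nhds (show -((d : ℝ) - 2 + η) < (2 - η) - d + ε by linarith))
    filter_upwards [h1, nrm_gt_one] with z h1 hz
    exact pow_upper hz (G_nonneg hμ0.le z) h1 le_rfl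
  have hone : ∀ n : ℕ, 1 ≤ (C d n : ℝ) / μ ^ n := fun n => by
    rw [one_le_div (by positivity)]
    exact mu_pow_le hd hμ n
  refine ⟨?_, fun γ hγ => ?_⟩
  · refine (core (γ := 1) hd hμ hs' hp hν' hη' ?_).1
    intro ε hε
    filter_upwards [eventually_ge_atTop 1] with n hn
    refine le_trans ?_ (hone n)
    apply Real.rpow_le_one_of_one_le_of_nonpos (by exact_mod_cast hn)
    linarith
  · refine (core (γ := γ) hd hμ hs' hp hν' hη' ?_).2
    intro ε hε
    have h1 := hγ.eventually (lt_mem_nhds (show γ - 1 - ε < γ - 1 by linarith))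
    filter_upwards [h1, eventually_ge_atTop 2] with n h1 hn
    exact pow_lower (by exact_mod_cast (by omega : 1 < n)) (by linarith [hone n]) h1

end Pool.Agent.TH262.FI
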