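import Pool.Agent.TH262.FI.Basic

/-!
# Fisher's inequality for self-avoiding walks
-/

set_option autoImplicit false

namespace Pool.Agent.TH262.FI

open Finset Filter Topology
open scoped Classical

variable {d : ℕ}

/-- the Euclidean norm -/
noncomputable def nrm (z : Fin d → ℤ) : ℝ := Real.sqrt (∑ k, ((z k : ℤ) : ℝ) ^ 2)

lemma nrm_nonneg (z : Fin d → ℤ) : 0 ≤ nrm z := Real.sqrt_nonneg _

lemma one_le_nrm {z : Fin d → ℤ} (hz : z ≠ 0) : 1 ≤ nrm z := by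
  unfold nrm
  rw [Real.one_le_sqrt]
  obtain ⟨k, hk⟩ : ∃ k, z k ≠ 0 := by
    by_contra hcon
    push Not at hcon
    exact hz (funext hcon)
  have h1 : (1 : ℝ) ≤ ((z k : ℤ) : ℝ) ^ 2 := by
    have : (1 : ℤ) ≤ (z k) ^ 2 := by
      have := pow_pos (abs_pos.2 hk) 2
      rw [sq_abs] at this
      omega
    exact_mod_cast this
  exact h1.trans (Finset.single_le_sum (f := fun k => ((z k : ℤ) : ℝ) ^ 2)
    (fun k _ => sq_nonneg _) (Finset.mem_univ k))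

lemma abs_le_nrm (z : Fin d → ℤ) (k : Fin d) : |((z k : ℤ) : ℝ)| ≤ nrm z := by
  unfold nrm
  apply Real.le_sqrt_of_sq_le
  rw [sq_abs]
  exact Finset.single_le_sum (f := fun k => ((z k : ℤ) : ℝ) ^ 2)
    (fun k _ => sq_nonneg _) (Finset.mem_univ k)

/-- the ball of integer radius -/
noncomputable def Bs (d : ℕ) (R : ℕ) : Finset (Fin d → ℤ) :=
  (Fintype.piFinset fun _ : Fin d => Finset.Icc (-(R : ℤ)) R).filter (fun z => nrm z ≤ R)

lemma mem_Bs {R : ℕ} {z : Fin d → ℤ} : z ∈ Bs d R ↔ nrm z ≤ R := by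
  unfold Bs
  rw [Finset.mem_filter]
  constructor
  · exact fun h => h.2
  · intro h
    refine ⟨Fintype.mem_piFinset.2 fun k => ?_, h⟩
    have h1 := (abs_le_nrm z k).trans h
    have h2 : |z k| ≤ (R : ℤ) := by exact_mod_cast h1
    have h3 := abs_le.1 h2
    exact Finset.mem_Icc.2 ⟨h3.1, h3.2⟩

lemma card_Bs (d R : ℕ) : (Bs d R).card ≤ (2 * R + 1) ^ d := by
  unfold Bs
  refine (Finset.card_filter_le _ _).trans (le_of_eq ?_)
  rw [Fintype.card_piFinset]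
  simp only [Int.card_Icc, Finset.prod_const, Finset.card_univ, Fintype.card_fin]
  congr 1
  omega

/-- mean of the `p`-th power of the end-to-end distance -/
noncomputable def mom (d : ℕ) (p : ℝ) (n : ℕ) : ℝ :=
  (∑ ω ∈ S d n, nrm (ω (Fin.last n)) ^ p) / (C d n : ℝ)

lemma last_ne {n : ℕ} (hn : 1 ≤ n) {ω : Fin (n + 1) → Fin d → ℤ} (h : IsSAW d n ω) :
    ω (Fin.last n) ≠ 0 := by
  intro h0
  rw [← h.1] at h0
  have := h.2.2 h0
  simp [Fin.ext_iff] at this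
  omega

lemma one_le_mom (hd : 1 ≤ d) {p : ℝ} (hp : 0 < p) {n : ℕ} (hn : 1 ≤ n) : 1 ≤ mom d p n := by
  unfold mom
  have hc : (0 : ℝ) < C d n := by exact_mod_cast C_pos hd n
  rw [one_le_div hc, C_eq]
  rw [show ((S d n).card : ℝ) = ∑ ω ∈ S d n, (1 : ℝ) by simp]
  refine Finset.sum_le_sum fun ω hω => ?_
  exact Real.one_le_rpow (one_le_nrm (last_ne hn (mem_S.1 hω))) hp.le

/-- **Markov.** -/
lemma markov (hd : 1 ≤ d) {p θ θ' : ℝ} (hp : 0 < p) (hθ : θ' < θ)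
    (h : ∀ᶠ n : ℕ in atTop, mom d p n ≤ (n : ℝ) ^ (p * θ')) :
    ∀ᶠ n : ℕ in atTop, (C d n : ℝ) ≤
      2 * (((S d n).filter (fun ω => nrm (ω (Fin.last n)) ≤ (n : ℝ) ^ θ)).card : ℝ) := by
  have h2 : ∀ᶠ n : ℕ in atTop, (2 : ℝ) ≤ (n : ℝ) ^ (p * (θ - θ')) :=
    ((tendsto_rpow_atTop (by nlinarith : 0 < p * (θ - θ'))).comp
      tendsto_natCast_atTop_atTop).eventually_ge_atTop 2
  filter_upwards [h, h2, eventually_ge_atTop 1] with n h1 h2 hn
  have hn0 : (0 : ℝ) < n := by exact_mod_cast hn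
  have hc : (0 : ℝ) < C d n := by exact_mod_cast C_pos hd n
  unfold mom at h1
  rw [div_le_iff₀ hc] at h1
  obtain ⟨X, hX⟩ : ∃ X : Finset (Fin (n + 1) → Fin d → ℤ), X = (S d n).filter
    (fun ω => ¬ nrm (ω (Fin.last n)) ≤ (n : ℝ) ^ θ) := ⟨_, rfl⟩
  have h3 : (X.card : ℝ) * (n : ℝ) ^ (p * θ) ≤ ∑ ω ∈ S d n, nrm (ω (Fin.last n)) ^ p := by
    calc (X.card : ℝ) * (n : ℝ) ^ (p * θ) = ∑ ω ∈ X, (n : ℝ) ^ (p * θ) := by
          rw [Finset.sum_const, nsmul_eq_mul]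
      _ ≤ ∑ ω ∈ X, nrm (ω (Fin.last n)) ^ p := by
          refine Finset.sum_le_sum fun ω hω => ?_
          rw [hX, Finset.mem_filter] at hω
          have h4 := (not_le.1 hω.2).le
          rw [mul_comm p θ, Real.rpow_mul hn0.le]
          exact Real.rpow_le_rpow (by positivity) h4 hp.le
      _ ≤ _ := by
          rw [hX]
          exact Finset.sum_le_sum_of_subset_of_nonneg (Finset.filter_subset _ _)
            fun ω _ _ => Real.rpow_nonneg (nrm_nonneg _) _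
  have h5 : (2 : ℝ) * X.card ≤ C d n := by
    have e : (n : ℝ) ^ (p * θ) = (n : ℝ) ^ (p * (θ - θ')) * (n : ℝ) ^ (p * θ') := by
      rw [← Real.rpow_add hn0]; congr 1; ring
    have hq : 0 < (n : ℝ) ^ (p * θ') := by positivity
    have h6 : (2 : ℝ) * X.card * (n : ℝ) ^ (p * θ') ≤ C d n * (n : ℝ) ^ (p * θ') := by
      calc (2 : ℝ) * X.card * (n : ℝ) ^ (p * θ') = X.card * (2 * (n : ℝ) ^ (p * θ')) := by ring
        _ ≤ X.card * ((n : ℝ) ^ (p * (θ - θ')) * (n : ℝ) ^ (p * θ')) := by gcongr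
        _ = X.card * (n : ℝ) ^ (p * θ) := by rw [e]
        _ ≤ (n : ℝ) ^ (p * θ') * C d n := h3.trans h1
        _ = _ := mul_comm _ _
    exact le_of_mul_le_mul_right h6 hq
  have h7 := Finset.card_filter_add_card_filter_not
    (s := S d n) (fun ω => nrm (ω (Fin.last n)) ≤ (n : ℝ) ^ θ)
  rw [← C_eq] at h7
  have h8 : ((((S d n).filter (fun ω => nrm (ω (Fin.last n)) ≤ (n : ℝ) ^ θ)).card : ℝ)) +
      (X.card : ℝ) = C d n := by
    rw [hX]
    exact_mod_cast h7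
  linarith

/-- walks that end in a ball -/
lemma ball_count {n : ℕ} {R : ℝ} {N : ℕ} (hR : R ≤ N) :
    (((S d n).filter (fun ω => nrm (ω (Fin.last n)) ≤ R)).card : ℝ) ≤
      ∑ z ∈ Bs d N, (Cz d n z : ℝ) := by
  have h : ((S d n).filter (fun ω => nrm (ω (Fin.last n)) ≤ R)).card ≤ ∑ z ∈ Bs d N, Cz d n z := by
    rw [Finset.card_eq_sum_card_fiberwise (f := fun ω => ω (Fin.last n)) (t := Bs d N)]
    · refine Finset.sum_le_sum fun z _ => ?_
      rw [Cz_eq]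
      apply Finset.card_le_card
      intro ω hω
      rw [Finset.mem_filter, Finset.mem_filter] at hω
      rw [Finset.mem_filter]
      exact ⟨hω.1.1, hω.2⟩
    · intro ω hω
      rw [Finset.mem_coe, Finset.mem_filter] at hω
      rw [Finset.mem_coe, mem_Bs]
      exact hω.2.trans hR
  exact_mod_cast h

/-- the two-point function -/
noncomputable def G (d : ℕ) (μ : ℝ) (z : Fin d → ℤ) : ℝ := ∑' n : ℕ, (Cz d n z : ℝ) / μ ^ n

lemma G_nonneg {μ : ℝ} (hμ : 0 ≤ μ) (z : Fin d → ℤ) : 0 ≤ G d μ z :=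
  tsum_nonneg fun n => by positivity

lemma exchange {μ : ℝ} (hμ : 0 ≤ μ)
    (hs : ∀ z : Fin d → ℤ, Summable fun n : ℕ => (Cz d n z : ℝ) / μ ^ n)
    (I : Finset ℕ) (B : Finset (Fin d → ℤ)) :
    ∑ n ∈ I, (∑ z ∈ B, (Cz d n z : ℝ)) / μ ^ n ≤ ∑ z ∈ B, G d μ z := by
  simp_rw [Finset.sum_div]
  rw [Finset.sum_comm]
  refine Finset.sum_le_sum fun z _ => ?_
  exact (hs z).sum_le_tsum I fun n _ => by positivity

/-- growth of the two-point function summed over balls -/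
lemma ball_sum {μ : ℝ} (hμ : 0 ≤ μ) {α : ℝ}
    (h : ∀ᶠ z : Fin d → ℤ in cofinite, G d μ z ≤ nrm z ^ α) :
    ∃ A c : ℝ, 0 ≤ c ∧ ∀ K : ℕ, ∑ z ∈ Bs d (2 ^ K), G d μ z ≤
      A + c * ((K : ℝ) + 1) * ((2 : ℝ) ^ (max 0 (d + α))) ^ K := by
  obtain ⟨Z0, hZ0⟩ : ∃ Z0 : Finset (Fin d → ℤ), ∀ z, z ∉ Z0 → G d μ z ≤ nrm z ^ α := by
    refine ⟨(Filter.eventually_cofinite.1 h).toFinset, fun z hz => ?_⟩
    by_contra hcon
    apply hz
    rw [Set.Finite.mem_toFinset]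
    exact hcon
  obtain ⟨Z, hZ⟩ : ∃ Z, Z = Z0 ∪ Bs d 1 := ⟨_, rfl⟩
  obtain ⟨cα, hcα⟩ : ∃ cα : ℝ, cα = max 1 ((2 : ℝ) ^ α) := ⟨_, rfl⟩
  have hc1 : 1 ≤ cα := by rw [hcα]; exact le_max_left _ _
  obtain ⟨M, hM⟩ : ∃ M : ℝ, M = (2 : ℝ) ^ (max 0 ((d : ℝ) + α)) := ⟨_, rfl⟩
  have hM1 : 1 ≤ M := by rw [hM]; exact Real.one_le_rpow (by norm_num) (le_max_left _ _)
  rw [← hM]
  have hM2 : (2 : ℝ) ^ ((d : ℝ) + α) ≤ M := by
    rw [hM]
    exact Real.rpow_le_rpow_of_exponent_le (by norm_num) (le_max_right _ _)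
  refine ⟨∑ z ∈ Z, G d μ z, 5 ^ d * cα, by positivity, fun K => ?_⟩
  have hG := fun z : Fin d → ℤ => G_nonneg hμ z
  have key : ∀ K : ℕ, ∑ z ∈ (Bs d (2 ^ K)) \ Z, G d μ z ≤ 5 ^ d * cα * K * M ^ K := by
    intro K
    induction K with
    | zero =>
      have : (Bs d (2 ^ 0)) \ Z = ∅ := by
        rw [hZ, pow_zero]
        exact Finset.sdiff_eq_empty_iff_subset.2 Finset.subset_union_right
      rw [this]
      simp
    | succ K ih =>
      have hsub : (Bs d (2 ^ (K + 1))) \ Z ⊆ ((Bs d (2 ^ K)) \ Z) ∪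
          ((Bs d (2 ^ (K + 1))) \ (Bs d (2 ^ K) ∪ Z)) := by
        intro z hz
        rw [Finset.mem_sdiff] at hz
        rw [Finset.mem_union, Finset.mem_sdiff, Finset.mem_sdiff, Finset.mem_union]
        tauto
      have h1 : ∑ z ∈ (Bs d (2 ^ (K + 1))) \ (Bs d (2 ^ K) ∪ Z), G d μ z ≤
          5 ^ d * cα * M ^ K := by
        have h2 : ∀ z ∈ (Bs d (2 ^ (K + 1))) \ (Bs d (2 ^ K) ∪ Z),
            G d μ z ≤ cα * ((2 : ℝ) ^ α) ^ K := by
          intro z hz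
          rw [Finset.mem_sdiff, Finset.mem_union, not_or, mem_Bs, mem_Bs, hZ, Finset.mem_union,
            not_or] at hz
          obtain ⟨h3, h4, h5, -⟩ := hz
          have h6 := hZ0 z h5
          push_cast at h3 h4
          have h7 : (2 : ℝ) ^ K ≤ nrm z := (not_le.1 h4).le
          have e : ((2 : ℝ) ^ α) ^ K = ((2 : ℝ) ^ K) ^ α := by
            rw [← Real.rpow_natCast, ← Real.rpow_natCast, ← Real.rpow_mul (by norm_num),
              ← Real.rpow_mul (by norm_num), mul_comm]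
          rw [e]
          refine h6.trans ?_
          rcases le_total 0 α with hα | hα
          · calc nrm z ^ α ≤ ((2 : ℝ) ^ (K + 1)) ^ α := Real.rpow_le_rpow (nrm_nonneg z) h3 hα
              _ = (2 : ℝ) ^ α * ((2 : ℝ) ^ K) ^ α := by
                  rw [pow_succ, Real.mul_rpow (by positivity) (by norm_num), mul_comm]
              _ ≤ cα * ((2 : ℝ) ^ K) ^ α := by
                  have : (2 : ℝ) ^ α ≤ cα := by rw [hcα]; exact le_max_right _ _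
                  gcongr
          · calc nrm z ^ α ≤ ((2 : ℝ) ^ K) ^ α :=
                  Real.rpow_le_rpow_of_nonpos (by positivity) h7 hα
              _ = 1 * ((2 : ℝ) ^ K) ^ α := (one_mul _).symm
              _ ≤ cα * ((2 : ℝ) ^ K) ^ α := by gcongr
        have h3 : (((Bs d (2 ^ (K + 1))) \ (Bs d (2 ^ K) ∪ Z)).card : ℝ) ≤ (5 * 2 ^ K) ^ d := by
          have h4 : ((Bs d (2 ^ (K + 1))) \ (Bs d (2 ^ K) ∪ Z)).card ≤ (2 * 2 ^ (K + 1) + 1) ^ d :=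
            (Finset.card_le_card Finset.sdiff_subset).trans (card_Bs d _)
          have h5 : (2 * 2 ^ (K + 1) + 1) ^ d ≤ (5 * 2 ^ K) ^ d := by
            apply Nat.pow_le_pow_left
            have : 1 ≤ 2 ^ K := Nat.one_le_two_pow
            rw [pow_succ]
            omega
          exact_mod_cast h4.trans h5
        calc ∑ z ∈ (Bs d (2 ^ (K + 1))) \ (Bs d (2 ^ K) ∪ Z), G d μ z
            ≤ ∑ z ∈ (Bs d (2 ^ (K + 1))) \ (Bs d (2 ^ K) ∪ Z), cα * ((2 : ℝ) ^ α) ^ K :=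
              Finset.sum_le_sum h2
          _ = (((Bs d (2 ^ (K + 1))) \ (Bs d (2 ^ K) ∪ Z)).card : ℝ) * (cα * ((2 : ℝ) ^ α) ^ K) := by
              rw [Finset.sum_const, nsmul_eq_mul]
          _ ≤ (5 * 2 ^ K) ^ d * (cα * ((2 : ℝ) ^ α) ^ K) := by gcongr
          _ = 5 ^ d * cα * ((2 : ℝ) ^ ((d : ℝ) + α)) ^ K := by
              rw [Real.rpow_add (by norm_num), Real.rpow_natCast, mul_pow, mul_pow]
              rw [← pow_mul, ← pow_mul]
              ring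
          _ ≤ 5 ^ d * cα * M ^ K := by gcongr
      calc ∑ z ∈ (Bs d (2 ^ (K + 1))) \ Z, G d μ z
          ≤ ∑ z ∈ ((Bs d (2 ^ K)) \ Z) ∪ ((Bs d (2 ^ (K + 1))) \ (Bs d (2 ^ K) ∪ Z)), G d μ z :=
            Finset.sum_le_sum_of_subset_of_nonneg hsub fun z _ _ => hG z
        _ ≤ ∑ z ∈ (Bs d (2 ^ K)) \ Z, G d μ z +
            ∑ z ∈ (Bs d (2 ^ (K + 1))) \ (Bs d (2 ^ K) ∪ Z), G d μ z := by
            have := Finset.sum_union_inter (s₁ := (Bs d (2 ^ K)) \ Z)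
              (s₂ := (Bs d (2 ^ (K + 1))) \ (Bs d (2 ^ K) ∪ Z)) (f := fun z => G d μ z)
            have h5 : 0 ≤ ∑ z ∈ ((Bs d (2 ^ K)) \ Z) ∩
              ((Bs d (2 ^ (K + 1))) \ (Bs d (2 ^ K) ∪ Z)), G d μ z :=
              Finset.sum_nonneg fun z _ => hG z
            linarith
        _ ≤ 5 ^ d * cα * K * M ^ K + 5 ^ d * cα * M ^ K := add_le_add ih h1
        _ = 5 ^ d * cα * (K + 1) * M ^ K := by ring
        _ ≤ 5 ^ d * cα * ((K + 1 : ℕ) : ℝ) * M ^ (K + 1) := by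
            push_cast
            have : M ^ K ≤ M ^ (K + 1) := pow_le_pow_right₀ hM1 (Nat.le_succ K)
            gcongr
  have h1 : ∑ z ∈ Bs d (2 ^ K), G d μ z ≤ ∑ z ∈ Z, G d μ z + ∑ z ∈ (Bs d (2 ^ K)) \ Z, G d μ z := by
    have hsub : Bs d (2 ^ K) ⊆ Z ∪ ((Bs d (2 ^ K)) \ Z) := by
      intro z hz
      rw [Finset.mem_union, Finset.mem_sdiff]
      tauto
    calc ∑ z ∈ Bs d (2 ^ K), G d μ z ≤ ∑ z ∈ Z ∪ ((Bs d (2 ^ K)) \ Z), G d μ z :=
          Finset.sum_le_sum_of_subset_of_nonneg hsub fun z _ _ => hG z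
      _ = _ := Finset.sum_union Finset.disjoint_sdiff
  have h2 : 5 ^ d * cα * K * M ^ K ≤ 5 ^ d * cα * ((K : ℝ) + 1) * M ^ K := by
    gcongr
    linarith
  linarith [key K]

/-- comparison of exponential rates -/
lemma rates {q M a b c : ℝ} (hM : 1 ≤ M) (ha : 0 < a)
    (h : ∀ᶠ K : ℕ in atTop, a * q ^ K ≤ b + c * ((K : ℝ) + 1) * M ^ K) : q ≤ M := by
  by_contra hcon
  push Not at hcon
  have hq0 : 0 < q := by linarith
  have hr0 : 0 ≤ M / q := by positivity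
  have hr1 : M / q < 1 := by rw [div_lt_one hq0]; exact hcon
  have t1 : Tendsto (fun K : ℕ => (K : ℝ) * (M / q) ^ K) atTop (𝓝 0) :=
    tendsto_self_mul_const_pow_of_lt_one hr0 hr1
  have t2 : Tendsto (fun K : ℕ => (M / q) ^ K) atTop (𝓝 0) :=
    tendsto_pow_atTop_nhds_zero_of_lt_one hr0 hr1
  have t3 : Tendsto (fun K : ℕ => (1 / q) ^ K) atTop (𝓝 0) :=
    tendsto_pow_atTop_nhds_zero_of_lt_one (by positivity)
      (by rw [div_lt_one hq0]; linarith)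
  have t4 : Tendsto (fun K : ℕ => b * (1 / q) ^ K + c * ((K : ℝ) * (M / q) ^ K + (M / q) ^ K))
      atTop (𝓝 0) := by
    have := (t3.const_mul b).add ((t1.add t2).const_mul c)
    simpa using this
  have h5 : a ≤ 0 := by
    refine ge_of_tendsto t4 ?_
    filter_upwards [h] with K hK
    have hqK : 0 < q ^ K := by positivity
    have e : b * (1 / q) ^ K + c * ((K : ℝ) * (M / q) ^ K + (M / q) ^ K) =
        (b + c * ((K : ℝ) + 1) * M ^ K) / q ^ K := by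
      rw [div_pow, div_pow, one_pow]
      field_simp
    rw [e, le_div_iff₀ hqK]
    exact hK
  linarith

end Pool.Agent.TH262.FI
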