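import Pool.Agent.TH262.FI.Fin

/-!
# Polygons: the exponent `α` against `ν` and `η`
-/

set_option autoImplicit false

namespace Pool.Agent.TH262.FI

open Finset Filter Topology
open scoped Classical

variable {d : ℕ}

/-- growth of the two-point function summed over balls -/
lemma ball_sum_gen {g : (Fin d → ℤ) → ℝ} (hg : ∀ z, 0 ≤ g z) {α : ℝ}
    (h : ∀ᶠ z : Fin d → ℤ in cofinite, g z ≤ nrm z ^ α) :
    ∃ A c : ℝ, 0 ≤ c ∧ ∀ K : ℕ, ∑ z ∈ Bs d (2 ^ K), g z ≤
      A + c * ((K : ℝ) + 1) * ((2 : ℝ) ^ (max 0 (d + α))) ^ K := by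
  obtain ⟨Z0, hZ0⟩ : ∃ Z0 : Finset (Fin d → ℤ), ∀ z, z ∉ Z0 → g z ≤ nrm z ^ α := by
    refine ⟨(Filter.eventually_cofinite.1 h).toFinset, fun z hz => ?_⟩
    by_contra hcon
    apply hz
    rw [Set.Finite.mem_toFinset]
    exact hcon
  obtain ⟨Z, hZ⟩ : ∃ Z, Z = Z0 ∪ Bs d 1 := ⟨_, rfl⟩
  obtain ⟨cα, hcα⟩ : ∃ cα : ℝ, cα = max 1 ((2 : ℝ) ^ α) := ⟨_, rfl⟩
  have hc1 : 1 ≤ cα := by rw [hcα]; exact le_max_left _ _
  obtain ⟨M, hM⟩ : ∃ M : ℝ, M = (2 : ℝ) ^ (max 0 ((d : ℝ) + α)) := ⟨_, rfl⟩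
  have hM1 : 1 ≤ M := by rw [hM]; exact Real.one_le_rpow (by norm_num) (le_max_left _ _)
  rw [← hM]
  have hM2 : (2 : ℝ) ^ ((d : ℝ) + α) ≤ M := by
    rw [hM]
    exact Real.rpow_le_rpow_of_exponent_le (by norm_num) (le_max_right _ _)
  refine ⟨∑ z ∈ Z, g z, 5 ^ d * cα, by positivity, fun K => ?_⟩
  have hG := fun z : Fin d → ℤ => hg z
  have key : ∀ K : ℕ, ∑ z ∈ (Bs d (2 ^ K)) \ Z, g z ≤ 5 ^ d * cα * K * M ^ K := by
    intro K
    induction K with
    | zero =>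
      have : (Bs d (2 ^ 0)) \ Z = ∅ := by
        rw [hZ, pow_zero]
        exact Finset.sdiff_eq_empty_iff_subset.2 Finset.subset_union_right
      rw [this]
      simp
    | succ K ih =>
      have hsub : (Bs d (2 ^ (K + 1))) \ Z ⊆ ((Bs d (2 ^ K)) \ Z) ∪
          ((Bs d (2 ^ (K + 1))) \ (Bs d (2 ^ K) ∪ Z)) := by
        intro z hz
        rw [Finset.mem_sdiff] at hz
        rw [Finset.mem_union, Finset.mem_sdiff, Finset.mem_sdiff, Finset.mem_union]
        tauto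
      have h1 : ∑ z ∈ (Bs d (2 ^ (K + 1))) \ (Bs d (2 ^ K) ∪ Z), g z ≤
          5 ^ d * cα * M ^ K := by
        have h2 : ∀ z ∈ (Bs d (2 ^ (K + 1))) \ (Bs d (2 ^ K) ∪ Z),
            g z ≤ cα * ((2 : ℝ) ^ α) ^ K := by
          intro z hz
          rw [Finset.mem_sdiff, Finset.mem_union, not_or, mem_Bs, mem_Bs, hZ, Finset.mem_union,
            not_or] at hz
          obtain ⟨h3, h4, h5, -⟩ := hz
          have h6 := hZ0 z h5
          push_cast at h3 h4
          have h7 : (2 : ℝ) ^ K ≤ nrm z := (not_le.1 h4).le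
          have e : ((2 : ℝ) ^ α) ^ K = ((2 : ℝ) ^ K) ^ α := by
            rw [← Real.rpow_natCast, ← Real.rpow_natCast, ← Real.rpow_mul (by norm_num),
              ← Real.rpow_mul (by norm_num), mul_comm]
          rw [e]
          refine h6.trans ?_
          rcases le_total 0 α with hα | hα
          · calc nrm z ^ α ≤ ((2 : ℝ) ^ (K + 1)) ^ α := Real.rpow_le_rpow (nrm_nonneg z) h3 hα
              _ = (2 : ℝ) ^ α * ((2 : ℝ) ^ K) ^ α := by
                  rw [pow_succ, Real.mul_rpow (by positivity) (by norm_num), mul_comm]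
              _ ≤ cα * ((2 : ℝ) ^ K) ^ α := by
                  have : (2 : ℝ) ^ α ≤ cα := by rw [hcα]; exact le_max_right _ _
                  gcongr
          · calc nrm z ^ α ≤ ((2 : ℝ) ^ K) ^ α :=
                  Real.rpow_le_rpow_of_nonpos (by positivity) h7 hα
              _ = 1 * ((2 : ℝ) ^ K) ^ α := (one_mul _).symm
              _ ≤ cα * ((2 : ℝ) ^ K) ^ α := by gcongr
        have h3 : (((Bs d (2 ^ (K + 1))) \ (Bs d (2 ^ K) ∪ Z)).card : ℝ) ≤ (5 * 2 ^ K) ^ d := by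
          have h4 : ((Bs d (2 ^ (K + 1))) \ (Bs d (2 ^ K) ∪ Z)).card ≤ (2 * 2 ^ (K + 1) + 1) ^ d :=
            (Finset.card_le_card Finset.sdiff_subset).trans (card_Bs d _)
          have h5 : (2 * 2 ^ (K + 1) + 1) ^ d ≤ (5 * 2 ^ K) ^ d := by
            apply Nat.pow_le_pow_left
            have : 1 ≤ 2 ^ K := Nat.one_le_two_pow
            rw [pow_succ]
            omega
          exact_mod_cast h4.trans h5
        calc ∑ z ∈ (Bs d (2 ^ (K + 1))) \ (Bs d (2 ^ K) ∪ Z), g z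
            ≤ ∑ z ∈ (Bs d (2 ^ (K + 1))) \ (Bs d (2 ^ K) ∪ Z), cα * ((2 : ℝ) ^ α) ^ K :=
              Finset.sum_le_sum h2
          _ = (((Bs d (2 ^ (K + 1))) \ (Bs d (2 ^ K) ∪ Z)).card : ℝ) * (cα * ((2 : ℝ) ^ α) ^ K) := by
              rw [Finset.sum_const, nsmul_eq_mul]
          _ ≤ (5 * 2 ^ K) ^ d * (cα * ((2 : ℝ) ^ α) ^ K) := by gcongr
          _ = 5 ^ d * cα * ((2 : ℝ) ^ ((d : ℝ) + α)) ^ K := by
              rw [Real.rpow_add (by norm_num), Real.rpow_natCast, mul_pow, mul_pow]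
              rw [← pow_mul, ← pow_mul]
              ring
          _ ≤ 5 ^ d * cα * M ^ K := by gcongr
      calc ∑ z ∈ (Bs d (2 ^ (K + 1))) \ Z, g z
          ≤ ∑ z ∈ ((Bs d (2 ^ K)) \ Z) ∪ ((Bs d (2 ^ (K + 1))) \ (Bs d (2 ^ K) ∪ Z)), g z :=
            Finset.sum_le_sum_of_subset_of_nonneg hsub fun z _ _ => hG z
        _ ≤ ∑ z ∈ (Bs d (2 ^ K)) \ Z, g z +
            ∑ z ∈ (Bs d (2 ^ (K + 1))) \ (Bs d (2 ^ K) ∪ Z), g z := by
            have := Finset.sum_union_inter (s₁ := (Bs d (2 ^ K)) \ Z)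
              (s₂ := (Bs d (2 ^ (K + 1))) \ (Bs d (2 ^ K) ∪ Z)) (f := fun z => g z)
            have h5 : 0 ≤ ∑ z ∈ ((Bs d (2 ^ K)) \ Z) ∩
              ((Bs d (2 ^ (K + 1))) \ (Bs d (2 ^ K) ∪ Z)), g z :=
              Finset.sum_nonneg fun z _ => hG z
            linarith
        _ ≤ 5 ^ d * cα * K * M ^ K + 5 ^ d * cα * M ^ K := add_le_add ih h1
        _ = 5 ^ d * cα * (K + 1) * M ^ K := by ring
        _ ≤ 5 ^ d * cα * ((K + 1 : ℕ) : ℝ) * M ^ (K + 1) := by
            push_cast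
            have : M ^ K ≤ M ^ (K + 1) := pow_le_pow_right₀ hM1 (Nat.le_succ K)
            gcongr
  have h1 : ∑ z ∈ Bs d (2 ^ K), g z ≤ ∑ z ∈ Z, g z + ∑ z ∈ (Bs d (2 ^ K)) \ Z, g z := by
    have hsub : Bs d (2 ^ K) ⊆ Z ∪ ((Bs d (2 ^ K)) \ Z) := by
      intro z hz
      rw [Finset.mem_union, Finset.mem_sdiff]
      tauto
    calc ∑ z ∈ Bs d (2 ^ K), g z ≤ ∑ z ∈ Z ∪ ((Bs d (2 ^ K)) \ Z), g z :=
          Finset.sum_le_sum_of_subset_of_nonneg hsub fun z _ _ => hG z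
      _ = _ := Finset.sum_union Finset.disjoint_sdiff
  have h2 : 5 ^ d * cα * K * M ^ K ≤ 5 ^ d * cα * ((K : ℝ) + 1) * M ^ K := by
    gcongr
    linarith
  linarith [key K]


/-- rooted oriented self-avoiding polygons -/
def IsSAP (d n : ℕ) (ω : Fin (n + 1) → Fin d → ℤ) : Prop :=
  ω 0 = 0 ∧ ω (Fin.last n) = 0 ∧ (∀ i : Fin n, ∑ k, |ω i.succ k - ω i.castSucc k| = 1) ∧
  ∀ i j : Fin (n + 1), (i : ℕ) < n → (j : ℕ) < n → ω i = ω j → i = j

/-- their number -/
noncomputable def A (d n : ℕ) : ℕ := {ω | IsSAP d n ω}.ncard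

/-- reversed last part -/
def rv (i j : ℕ) (ω : Fin (i + j + 1) → Fin d → ℤ) : Fin (j + 1) → Fin d → ℤ :=
  fun k => ω ⟨i + j - k, by omega⟩

lemma pre_sap {i j : ℕ} (hj : 1 ≤ j) {ω : Fin (i + j + 1) → Fin d → ℤ} (h : IsSAP d (i + j) ω) :
    IsSAW d i (pre i j ω) := by
  refine ⟨?_, ?_, ?_⟩
  · have := h.1
    unfold pre
    exact this
  · intro a
    exact h.2.2.1 ⟨a, by omega⟩
  · intro a b hab
    have := h.2.2.2 ⟨a, by omega⟩ ⟨b, by omega⟩ (by simp only; omega) (by simp only; omega) hab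
    simp only [Fin.mk.injEq] at this
    exact Fin.ext this

lemma rv_sap {i j : ℕ} (hi : 1 ≤ i) {ω : Fin (i + j + 1) → Fin d → ℤ} (h : IsSAP d (i + j) ω) :
    IsSAW d j (rv i j ω) := by
  refine ⟨?_, ?_, ?_⟩
  · exact h.2.1
  · intro a
    have h1 := h.2.2.1 ⟨i + j - a - 1, by omega⟩
    rw [← h1]
    refine Finset.sum_congr rfl fun k _ => ?_
    rw [abs_sub_comm]
    have e1 : (⟨i + j - a - 1, by omega⟩ : Fin (i + j)).succ =
        (⟨i + j - (a.castSucc : Fin (j + 1)), by omega⟩ : Fin (i + j + 1)) := by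
      apply Fin.ext; simp only [Fin.val_succ, Fin.val_castSucc]; omega
    have e2 : (⟨i + j - a - 1, by omega⟩ : Fin (i + j)).castSucc =
        (⟨i + j - (a.succ : Fin (j + 1)), by omega⟩ : Fin (i + j + 1)) := by
      apply Fin.ext; simp only [Fin.val_succ, Fin.val_castSucc]; omega
    rw [e1, e2]
    rfl
  · intro a b hab
    unfold rv at hab
    by_cases ha : (a : ℕ) = 0
    · by_cases hb : (b : ℕ) = 0
      · exact Fin.ext (by omega)
      · exfalso
        have h0 : ω ⟨i + j - b, by omega⟩ = ω 0 := by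
          rw [← hab, h.1]
          have : (⟨i + j - a, by omega⟩ : Fin (i + j + 1)) = Fin.last (i + j) := by
            apply Fin.ext; simp only [Fin.val_last]; omega
          rw [this]
          exact h.2.1
        have h3 := h.2.2.2 _ 0 (by simp only; omega) (by simp only [Fin.val_zero]; omega) h0
        have h4 := congrArg Fin.val h3
        simp only [Fin.val_zero] at h4
        omega
    · by_cases hb : (b : ℕ) = 0
      · exfalso
        have h0 : ω ⟨i + j - a, by omega⟩ = ω 0 := by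
          rw [hab, h.1]
          have : (⟨i + j - b, by omega⟩ : Fin (i + j + 1)) = Fin.last (i + j) := by
            apply Fin.ext; simp only [Fin.val_last]; omega
          rw [this]
          exact h.2.1
        have h3 := h.2.2.2 _ 0 (by simp only; omega) (by simp only [Fin.val_zero]; omega) h0
        have h4 := congrArg Fin.val h3
        simp only [Fin.val_zero] at h4
        omega
      · have h3 := h.2.2.2 _ _ (by simp only; omega) (by simp only; omega) hab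
        have h4 := congrArg Fin.val h3
        simp only at h4
        exact Fin.ext (by omega)

/-- number of walks that end far away -/
noncomputable def far (d i : ℕ) (R : ℝ) : ℕ :=
  ((S d i).filter (fun ω => ¬ nrm (ω (Fin.last i)) ≤ R)).card

/-- **cutting a polygon** -/
lemma A_le {i j : ℕ} (hi : 1 ≤ i) (hj : 1 ≤ j) (R : ℕ) :
    A d (i + j) ≤ ∑ z ∈ Bs d R, Cz d i z * Cz d j z + far d i R * C d j := by
  obtain ⟨T, hT⟩ : ∃ T : Finset ((Fin (i + 1) → Fin d → ℤ) × (Fin (j + 1) → Fin d → ℤ)),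
      T = ((S d i) ×ˢ (S d j)).filter (fun q => q.1 (Fin.last i) = q.2 (Fin.last j)) := ⟨_, rfl⟩
  have h1 : A d (i + j) ≤ T.card := by
    unfold A
    rw [← Set.ncard_coe_finset]
    refine Set.ncard_le_ncard_of_injOn (fun ω => (pre i j ω, rv i j ω)) ?_ ?_
      (Finset.finite_toSet T)
    · intro ω hω
      have hω' : IsSAP d (i + j) ω := hω
      rw [hT, Finset.mem_coe, Finset.mem_filter, Finset.mem_product]
      refine ⟨⟨mem_S.2 (pre_sap hj hω'), mem_S.2 (rv_sap hi hω')⟩, ?_⟩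
      show ω ⟨i, _⟩ = ω ⟨i + j - j, _⟩
      congr 1
      apply Fin.ext
      simp only
      omega
    · intro ω _ ω' _ h
      have h2 := congrArg Prod.fst h
      have h3 := congrArg Prod.snd h
      funext a
      by_cases ha : (a : ℕ) ≤ i
      · exact congrFun h2 ⟨a, by omega⟩
      · have h4 := congrFun h3 ⟨i + j - a, by omega⟩
        simp only [rv] at h4
        have e : (⟨i + j - (i + j - (a : ℕ)), by omega⟩ : Fin (i + j + 1)) = a := by
          apply Fin.ext; simp only; omega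
        rw [e] at h4
        exact h4
  refine h1.trans ?_
  have h2 : T = T.filter (fun q => nrm (q.1 (Fin.last i)) ≤ (R : ℝ)) ∪
      T.filter (fun q => ¬ nrm (q.1 (Fin.last i)) ≤ (R : ℝ)) := by
    rw [Finset.filter_union_filter_not_eq]
  rw [h2]
  refine (Finset.card_union_le _ _).trans (Nat.add_le_add ?_ ?_)
  · rw [Finset.card_eq_sum_card_fiberwise (f := fun q => q.1 (Fin.last i)) (t := Bs d R)]
    · refine Finset.sum_le_sum fun z _ => ?_
      rw [Cz_eq, Cz_eq, ← Finset.card_product]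
      apply Finset.card_le_card
      intro q hq
      rw [Finset.mem_filter, Finset.mem_filter, hT, Finset.mem_filter, Finset.mem_product] at hq
      obtain ⟨⟨⟨⟨q1, q2⟩, q3⟩, -⟩, q5⟩ := hq
      rw [Finset.mem_product, Finset.mem_filter, Finset.mem_filter]
      exact ⟨⟨q1, q5⟩, ⟨q2, by rw [← q3]; exact q5⟩⟩
    · intro q hq
      rw [Finset.mem_coe, Finset.mem_filter] at hq
      rw [Finset.mem_coe, mem_Bs]
      exact hq.2
  · unfold far
    rw [C_eq d j, ← Finset.card_product]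
    apply Finset.card_le_card
    intro q hq
    rw [Finset.mem_filter, hT, Finset.mem_filter, Finset.mem_product] at hq
    obtain ⟨⟨⟨q1, q2⟩, -⟩, q4⟩ := hq
    rw [Finset.mem_product, Finset.mem_filter]
    exact ⟨⟨q1, q4⟩, q2⟩

/-- Markov's inequality -/
lemma far_le (hd : 1 ≤ d) {p : ℝ} (hp : 0 < p) {i : ℕ} {R : ℝ} (hR : 0 < R) :
    (far d i R : ℝ) * R ^ p ≤ C d i * mom d p i := by
  have hc : (0 : ℝ) < C d i := by exact_mod_cast C_pos hd i
  unfold mom far
  rw [mul_div_cancel₀ _ hc.ne']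
  obtain ⟨X, hX⟩ : ∃ X : Finset (Fin (i + 1) → Fin d → ℤ), X = (S d i).filter
    (fun ω => ¬ nrm (ω (Fin.last i)) ≤ R) := ⟨_, rfl⟩
  rw [← hX]
  calc (X.card : ℝ) * R ^ p = ∑ ω ∈ X, R ^ p := by rw [Finset.sum_const, nsmul_eq_mul]
    _ ≤ ∑ ω ∈ X, nrm (ω (Fin.last i)) ^ p := by
        refine Finset.sum_le_sum fun ω hω => ?_
        rw [hX, Finset.mem_filter] at hω
        exact Real.rpow_le_rpow hR.le (not_le.1 hω.2).le hp.le
    _ ≤ _ := by
        rw [hX]
        exact Finset.sum_le_sum_of_subset_of_nonneg (Finset.filter_subset _ _)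
          fun ω _ _ => Real.rpow_nonneg (nrm_nonneg _) _

/-- the near part -/
lemma near_sum {μ : ℝ} (hμ : 0 < μ)
    (hs : ∀ z : Fin d → ℤ, Summable fun n : ℕ => (Cz d n z : ℝ) / μ ^ n)
    (J : Finset ℕ) (B : Finset (Fin d → ℤ)) :
    ∑ i ∈ J, ∑ j ∈ J, (∑ z ∈ B, (Cz d i z : ℝ) * Cz d j z) / μ ^ (i + j) ≤
      ∑ z ∈ B, (G d μ z) ^ 2 := by
  have e : ∑ i ∈ J, ∑ j ∈ J, (∑ z ∈ B, (Cz d i z : ℝ) * Cz d j z) / μ ^ (i + j) =
      ∑ z ∈ B, (∑ i ∈ J, (Cz d i z : ℝ) / μ ^ i) ^ 2 := by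
    calc ∑ i ∈ J, ∑ j ∈ J, (∑ z ∈ B, (Cz d i z : ℝ) * Cz d j z) / μ ^ (i + j)
        = ∑ i ∈ J, ∑ j ∈ J, ∑ z ∈ B, ((Cz d i z : ℝ) / μ ^ i) * (Cz d j z / μ ^ j) := by
          refine Finset.sum_congr rfl fun i _ => Finset.sum_congr rfl fun j _ => ?_
          rw [Finset.sum_div]
          refine Finset.sum_congr rfl fun z _ => ?_
          rw [pow_add]
          field_simp
      _ = ∑ z ∈ B, ∑ i ∈ J, ∑ j ∈ J, ((Cz d i z : ℝ) / μ ^ i) * (Cz d j z / μ ^ j) := by
          rw [Finset.sum_comm (s := B) (t := J)]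
          refine Finset.sum_congr rfl fun i _ => ?_
          rw [Finset.sum_comm]
      _ = _ := by
          refine Finset.sum_congr rfl fun z _ => ?_
          rw [sq, Finset.sum_mul_sum]
  rw [e]
  refine Finset.sum_le_sum fun z _ => ?_
  apply pow_le_pow_left₀ (Finset.sum_nonneg fun i _ => by positivity)
  exact (hs z).sum_le_tsum J fun n _ => by positivity

end Pool.Agent.TH262.FI
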