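import Pool.Agent.TH262.FI.Poly

/-!
# Polygons: the exponent `α` against `ν` and `η`, the estimate
-/

set_option autoImplicit false

namespace Pool.Agent.TH262.FI

open Finset Filter Topology
open scoped Classical

variable {d : ℕ}

lemma rpow_between (s : ℝ) : ∃ c : ℝ, 0 < c ∧ ∀ u x : ℝ, 0 < u → u / 8 ≤ x → x ≤ u →
    c * u ^ s ≤ x ^ s := by
  rcases le_total 0 s with hs | hs
  · refine ⟨(1 / 8 : ℝ) ^ s, by positivity, fun u x hu h1 h2 => ?_⟩
    rw [← Real.mul_rpow (by norm_num) hu.le]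
    exact Real.rpow_le_rpow (by positivity) (by linarith) hs
  · refine ⟨1, one_pos, fun u x hu h1 h2 => ?_⟩
    rw [one_mul]
    exact Real.rpow_le_rpow_of_nonpos (by linarith) h2 hs

lemma mom_nonneg (d : ℕ) (p : ℝ) (n : ℕ) : 0 ≤ mom d p n := by
  unfold mom
  exact div_nonneg (Finset.sum_nonneg fun ω _ => Real.rpow_nonneg (nrm_nonneg _) _)
    (Nat.cast_nonneg _)

lemma all_of_eventually {f : ℕ → ℝ} (hf : ∀ n, 0 ≤ f n) {s : ℝ} (hs : 0 ≤ s)
    (h : ∀ᶠ n : ℕ in atTop, f n ≤ (n : ℝ) ^ s) :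
    ∃ D : ℝ, 1 ≤ D ∧ ∀ n : ℕ, 1 ≤ n → f n ≤ D * (n : ℝ) ^ s := by
  obtain ⟨n1, hn1⟩ := Filter.eventually_atTop.1 h
  refine ⟨1 + ∑ j ∈ Finset.range n1, f j, ?_, fun n hn => ?_⟩
  · have := Finset.sum_nonneg fun j (_ : j ∈ Finset.range n1) => hf j
    linarith
  · have h0 := Finset.sum_nonneg fun j (_ : j ∈ Finset.range n1) => hf j
    have h1 : (1 : ℝ) ≤ (n : ℝ) ^ s := Real.one_le_rpow (by exact_mod_cast hn) hs
    rcases le_or_gt n1 n with h2 | h2
    · have := hn1 n h2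
      nlinarith
    · have h3 : f n ≤ ∑ j ∈ Finset.range n1, f j :=
        Finset.single_le_sum (f := f) (fun j _ => hf j) (Finset.mem_range.2 h2)
      nlinarith

/-- the inequality with room -/
theorem core_poly (hd : 1 ≤ d) {μ : ℝ}
    (hμ : Tendsto (fun n : ℕ => (C d n : ℝ) ^ (1 / (n : ℝ))) atTop (𝓝 μ))
    (hs : ∀ z : Fin d → ℤ, Summable fun n : ℕ => (Cz d n z : ℝ) / μ ^ n)
    {p θ θ' δ β g : ℝ} (hp : 0 < p) (hθθ : θ' < θ) (hg : 0 ≤ g)
    (hpg : 2 + 2 * g ≤ p * (θ - θ'))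
    (hν : ∀ᶠ n : ℕ in atTop, mom d p n ≤ (n : ℝ) ^ (p * θ'))
    (hη : ∀ᶠ z : Fin d → ℤ in cofinite, G d μ z ≤ nrm z ^ (δ - d))
    (hγ : ∀ᶠ n : ℕ in atTop, (C d n : ℝ) / μ ^ n ≤ (n : ℝ) ^ g)
    (hα : ∀ᶠ k : ℕ in atTop, ((2 * k : ℕ) : ℝ) ^ β ≤ (A d (2 * k) : ℝ) / μ ^ (2 * k)) :
    2 + β ≤ θ * max 0 (2 * δ - d) := by
  have hμ1 := one_le_mu hd hμ
  have hμ0 : 0 < μ := by linarith
  have hθ'0 : 0 ≤ θ' := by
    obtain ⟨n, hn, hn2⟩ := (hν.and (eventually_ge_atTop 2)).exists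
    have h1 := one_le_mom hd hp (show 1 ≤ n by omega)
    have h2 := h1.trans hn
    by_contra hcon
    push Not at hcon
    have h3 : (n : ℝ) ^ (p * θ') < 1 :=
      Real.rpow_lt_one_of_one_lt_of_neg (by exact_mod_cast (by omega : 1 < n))
        (mul_neg_of_pos_of_neg hp hcon)
    linarith
  have hθ0 : 0 < θ := by linarith
  -- sums of squares over balls
  have hη2 : ∀ᶠ z : Fin d → ℤ in cofinite, (fun z => (G d μ z) ^ 2) z ≤ nrm z ^ (2 * (δ - d)) := by
    filter_upwards [hη] with z hz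
    have h1 : (G d μ z) ^ 2 ≤ (nrm z ^ (δ - d)) ^ 2 :=
      pow_le_pow_left₀ (G_nonneg hμ0.le z) hz 2
    have e : (nrm z ^ (δ - d)) ^ 2 = nrm z ^ (2 * (δ - d)) := by
      rw [← Real.rpow_natCast, ← Real.rpow_mul (nrm_nonneg z)]
      congr 1
      push_cast
      ring
    rw [← e]
    exact h1
  obtain ⟨A0, c, hc, hball⟩ := ball_sum_gen (g := fun z => (G d μ z) ^ 2)
    (fun z => sq_nonneg _) hη2
  have e0 : (d : ℝ) + 2 * (δ - d) = 2 * δ - d := by ring
  rw [e0] at hball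
  obtain ⟨M, hM⟩ : ∃ M : ℝ, M = (2 : ℝ) ^ (max 0 (2 * δ - d)) := ⟨_, rfl⟩
  have hM1 : 1 ≤ M := by rw [hM]; exact Real.one_le_rpow (by norm_num) (le_max_left _ _)
  rw [← hM] at hball
  obtain ⟨D1, hD1, hmom⟩ := all_of_eventually (mom_nonneg d p) (by positivity : 0 ≤ p * θ') hν
  obtain ⟨D2, hD2, hC⟩ := all_of_eventually (f := fun n => (C d n : ℝ) / μ ^ n)
    (fun n => by positivity) hg hγ
  obtain ⟨n3, hn3⟩ := Filter.eventually_atTop.1 hα
  obtain ⟨cb, hcb, hbet⟩ := rpow_between β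
  obtain ⟨y, hy⟩ : ∃ y : ℝ, y = (2 : ℝ) ^ (1 / θ) := ⟨_, rfl⟩
  have hy1 : 1 < y := by rw [hy]; exact Real.one_lt_rpow (by norm_num) (by positivity)
  have hy0 : 0 < y := by linarith
  have hyθ : y ^ θ = 2 := by
    rw [hy, ← Real.rpow_mul (by norm_num), one_div, inv_mul_cancel₀ hθ0.ne', Real.rpow_one]
  have hyt : Tendsto (fun K : ℕ => y ^ K) atTop atTop := tendsto_pow_atTop_atTop_of_one_lt hy1
  have hlarge := hyt.eventually_ge_atTop (8 * ((n3 : ℝ) + 3) + 10)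
  have hmain : ∀ᶠ K : ℕ in atTop, (cb / 1024) * (y ^ (2 + β)) ^ K ≤
      (A0 + D1 * D2 ^ 2) + c * ((K : ℝ) + 1) * M ^ K := by
    filter_upwards [hlarge] with K hK
    obtain ⟨u, hu⟩ : ∃ u : ℝ, u = y ^ K := ⟨_, rfl⟩
    have hu0 : 0 < u := by rw [hu]; positivity
    rw [← hu] at hK
    obtain ⟨N, hN⟩ : ∃ N : ℕ, N = ⌊u⌋₊ := ⟨_, rfl⟩
    have hNle : (N : ℝ) ≤ u := by rw [hN]; exact Nat.floor_le hu0.le
    have hNgt : u < N + 1 := by rw [hN]; exact Nat.lt_floor_add_one _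
    have hNbig : 8 * (n3 + 3) + 9 ≤ N := by
      have h1 : ((8 * (n3 + 3) + 9 : ℕ) : ℝ) < (N : ℝ) + 1 := by
        push_cast
        linarith
      have h2 : 8 * (n3 + 3) + 9 < N + 1 := by exact_mod_cast h1
      omega
    have hNR : u / 2 ≤ N := by
      have h1 : (0 : ℝ) ≤ n3 := Nat.cast_nonneg _
      linarith
    obtain ⟨J0, hJ0⟩ : ∃ J0 : Finset ℕ, J0 = Finset.Ioc (N / 8) (N / 4) := ⟨_, rfl⟩
    obtain ⟨J, hJ⟩ : ∃ J : Finset ℕ, J = J0.image (fun a => 2 * a) := ⟨_, rfl⟩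
    have hJcard : J.card = N / 4 - N / 8 := by
      rw [hJ, Finset.card_image_of_injective _ (fun a b h => by simpa using h), hJ0, Nat.card_Ioc]
    have hJlow : u / 32 ≤ (J.card : ℝ) := by
      have h1 : N ≤ 16 * J.card := by rw [hJcard]; omega
      have h2 : (N : ℝ) ≤ 16 * (J.card : ℝ) := by exact_mod_cast h1
      linarith
    have hJup : (J.card : ℝ) ≤ u := by
      have h1 : J.card ≤ N := by rw [hJcard]; omega
      have h2 : (J.card : ℝ) ≤ N := by exact_mod_cast h1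
      linarith
    have hJmem : ∀ i ∈ J, ∃ a, i = 2 * a ∧ N / 8 < a ∧ a ≤ N / 4 := by
      intro i hi
      rw [hJ, Finset.mem_image] at hi
      obtain ⟨a, ha, rfl⟩ := hi
      rw [hJ0, Finset.mem_Ioc] at ha
      exact ⟨a, rfl, ha.1, ha.2⟩
    have hiu : ∀ i ∈ J, 1 ≤ i ∧ (i : ℝ) ≤ u := by
      intro i hi
      obtain ⟨a, rfl, h1, h2⟩ := hJmem i hi
      refine ⟨by omega, ?_⟩
      have h3 : 2 * a ≤ N := by omega
      have h4 : ((2 * a : ℕ) : ℝ) ≤ N := by exact_mod_cast h3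
      linarith
    -- lower bound
    have hlow : (cb / 1024) * (y ^ (2 + β)) ^ K ≤
        ∑ i ∈ J, ∑ j ∈ J, (A d (i + j) : ℝ) / μ ^ (i + j) := by
      calc (cb / 1024) * (y ^ (2 + β)) ^ K = (u / 32) * ((u / 32) * (cb * u ^ β)) := by
            have e1 : (y ^ (2 + β)) ^ K = u ^ (2 + β) := by
              rw [hu, ← Real.rpow_natCast, ← Real.rpow_natCast, ← Real.rpow_mul hy0.le,
                ← Real.rpow_mul hy0.le, mul_comm]
            rw [e1, Real.rpow_add hu0, Real.rpow_two]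
            ring
        _ ≤ (J.card : ℝ) * ((J.card : ℝ) * (cb * u ^ β)) := by gcongr
        _ = ∑ i ∈ J, ∑ j ∈ J, cb * u ^ β := by
            simp only [Finset.sum_const, nsmul_eq_mul]
        _ ≤ _ := by
            refine Finset.sum_le_sum fun i hi => Finset.sum_le_sum fun j hj => ?_
            obtain ⟨a, rfl, ha1, ha2⟩ := hJmem i hi
            obtain ⟨b, rfl, hb1, hb2⟩ := hJmem j hj
            have e2 : 2 * a + 2 * b = 2 * (a + b) := by ring
            rw [e2]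
            refine le_trans ?_ (hn3 (a + b) (by omega))
            apply hbet u _ hu0
            · have h3 : N ≤ 2 * (2 * (a + b)) := by omega
              have h4 : (N : ℝ) ≤ 2 * ((2 * (a + b) : ℕ) : ℝ) := by exact_mod_cast h3
              linarith
            · have h3 : 2 * (a + b) ≤ N := by omega
              have h4 : ((2 * (a + b) : ℕ) : ℝ) ≤ N := by exact_mod_cast h3
              linarith
    -- the far part, termwise
    have h2K : ((2 ^ K : ℕ) : ℝ) = u ^ θ := by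
      push_cast
      rw [hu, ← hyθ, ← Real.rpow_natCast, ← Real.rpow_natCast, ← Real.rpow_mul hy0.le,
        ← Real.rpow_mul hy0.le, mul_comm]
    have hu1 : 1 ≤ u := by
      have h1 : (0 : ℝ) ≤ n3 := Nat.cast_nonneg _
      linarith
    have hfar : ∀ i ∈ J, ∀ j ∈ J, ((far d i ((2 ^ K : ℕ) : ℝ) : ℝ) * C d j) / μ ^ (i + j) ≤
        D1 * D2 ^ 2 * u ^ (-(2 : ℝ)) := by
      intro i hi j hj
      obtain ⟨hi1, hiu'⟩ := hiu i hi
      obtain ⟨hj1, hju'⟩ := hiu j hj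
      have hR0 : (0 : ℝ) < ((2 ^ K : ℕ) : ℝ) := by positivity
      have h1 := far_le hd hp (i := i) hR0
      have h2 : mom d p i ≤ D1 * u ^ (p * θ') := by
        refine (hmom i hi1).trans ?_
        gcongr
      have h3 : (far d i ((2 ^ K : ℕ) : ℝ) : ℝ) ≤ C d i * (D1 * u ^ (p * θ')) * u ^ (-(p * θ)) := by
        have h4 : (((2 ^ K : ℕ) : ℝ)) ^ p = u ^ (p * θ) := by
          rw [h2K, ← Real.rpow_mul hu0.le, mul_comm]
        rw [h4] at h1
        have h5 : (0 : ℝ) < u ^ (p * θ) := by positivity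
        rw [Real.rpow_neg hu0.le, ← div_eq_mul_inv, le_div_iff₀ h5]
        refine h1.trans ?_
        gcongr
      have h6 : (C d i : ℝ) / μ ^ i ≤ D2 * u ^ g := by
        refine (hC i hi1).trans ?_
        gcongr
      have h7 : (C d j : ℝ) / μ ^ j ≤ D2 * u ^ g := by
        refine (hC j hj1).trans ?_
        gcongr
      calc ((far d i ((2 ^ K : ℕ) : ℝ) : ℝ) * C d j) / μ ^ (i + j)
          ≤ ((C d i * (D1 * u ^ (p * θ')) * u ^ (-(p * θ))) * C d j) / μ ^ (i + j) := by gcongr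
        _ = (D1 * (u ^ (p * θ') * u ^ (-(p * θ)))) * ((C d i : ℝ) / μ ^ i) * ((C d j : ℝ) / μ ^ j) := by
            rw [pow_add]
            field_simp
        _ ≤ (D1 * (u ^ (p * θ') * u ^ (-(p * θ)))) * (D2 * u ^ g) * (D2 * u ^ g) := by gcongr
        _ = D1 * D2 ^ 2 * u ^ (p * θ' + -(p * θ) + g + g) := by
            rw [Real.rpow_add hu0, Real.rpow_add hu0, Real.rpow_add hu0]
            ring
        _ ≤ D1 * D2 ^ 2 * u ^ (-(2 : ℝ)) := by
            apply mul_le_mul_of_nonneg_left _ (by positivity)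
            apply Real.rpow_le_rpow_of_exponent_le hu1
            nlinarith
    have hup : ∑ i ∈ J, ∑ j ∈ J, (A d (i + j) : ℝ) / μ ^ (i + j) ≤
        (A0 + D1 * D2 ^ 2) + c * ((K : ℝ) + 1) * M ^ K := by
      calc ∑ i ∈ J, ∑ j ∈ J, (A d (i + j) : ℝ) / μ ^ (i + j)
          ≤ ∑ i ∈ J, ∑ j ∈ J, ((∑ z ∈ Bs d (2 ^ K), (Cz d i z : ℝ) * Cz d j z) / μ ^ (i + j) +
              D1 * D2 ^ 2 * u ^ (-(2 : ℝ))) := by
            refine Finset.sum_le_sum fun i hi => Finset.sum_le_sum fun j hj => ?_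
            have h1 : (A d (i + j) : ℝ) ≤ ∑ z ∈ Bs d (2 ^ K), (Cz d i z : ℝ) * Cz d j z +
                (far d i ((2 ^ K : ℕ) : ℝ) : ℝ) * C d j := by
              exact_mod_cast A_le (hiu i hi).1 (hiu j hj).1 (2 ^ K)
            calc (A d (i + j) : ℝ) / μ ^ (i + j)
                ≤ (∑ z ∈ Bs d (2 ^ K), (Cz d i z : ℝ) * Cz d j z +
                  (far d i ((2 ^ K : ℕ) : ℝ) : ℝ) * C d j) / μ ^ (i + j) := by gcongr
              _ = (∑ z ∈ Bs d (2 ^ K), (Cz d i z : ℝ) * Cz d j z) / μ ^ (i + j) +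
                  ((far d i ((2 ^ K : ℕ) : ℝ) : ℝ) * C d j) / μ ^ (i + j) := by rw [add_div]
              _ ≤ _ := by
                  have := hfar i hi j hj
                  linarith
        _ = ∑ i ∈ J, ∑ j ∈ J, (∑ z ∈ Bs d (2 ^ K), (Cz d i z : ℝ) * Cz d j z) / μ ^ (i + j) +
            (J.card : ℝ) * ((J.card : ℝ) * (D1 * D2 ^ 2 * u ^ (-(2 : ℝ)))) := by
            simp only [Finset.sum_add_distrib, Finset.sum_const, nsmul_eq_mul]
        _ ≤ ∑ z ∈ Bs d (2 ^ K), (G d μ z) ^ 2 + u * (u * (D1 * D2 ^ 2 * u ^ (-(2 : ℝ)))) := by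
            have h1 := near_sum hμ0 hs J (Bs d (2 ^ K))
            have h2 : (J.card : ℝ) * ((J.card : ℝ) * (D1 * D2 ^ 2 * u ^ (-(2 : ℝ)))) ≤
                u * (u * (D1 * D2 ^ 2 * u ^ (-(2 : ℝ)))) := by gcongr
            linarith
        _ = ∑ z ∈ Bs d (2 ^ K), (G d μ z) ^ 2 + D1 * D2 ^ 2 := by
            rw [Real.rpow_neg hu0.le, Real.rpow_two]
            field_simp
        _ ≤ _ := by
            have := hball K
            linarith
    exact hlow.trans hup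
  have hrate := rates hM1 (by positivity) hmain
  have e1 : y ^ (2 + β) = (2 : ℝ) ^ ((2 + β) / θ) := by
    rw [hy, ← Real.rpow_mul (by norm_num)]
    congr 1
    ring
  rw [e1, hM] at hrate
  have h2 : (2 + β) / θ ≤ max 0 (2 * δ - d) := by
    by_contra hcon
    push Not at hcon
    have := Real.rpow_lt_rpow_of_exponent_lt (show (1 : ℝ) < 2 by norm_num) hcon
    linarith
  rw [div_le_iff₀ hθ0] at h2
  linarith

end Pool.Agent.TH262.FI
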