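import Pool.Agent.TH262.FI.PolyCore

/-!
# Polygons: the exponent `α` against `ν` and `η`, exponents defined by limits
-/

set_option autoImplicit false

namespace Pool.Agent.TH262.FI

open Finset Filter Topology
open scoped Classical

variable {d : ℕ}

/-- the number of walks exceeds `μ^n` by a power of `n` at most -/
lemma poly_bound (hd : 1 ≤ d) {μ : ℝ} (hμ0 : 0 < μ)
    (hs : ∀ z : Fin d → ℤ, Summable fun n : ℕ => (Cz d n z : ℝ) / μ ^ n)
    {p θ θ' α : ℝ} (hp : 0 < p) (hθθ : θ' < θ) (hθ0 : 0 ≤ θ)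
    (hν : ∀ᶠ n : ℕ in atTop, mom d p n ≤ (n : ℝ) ^ (p * θ'))
    (hη : ∀ᶠ z : Fin d → ℤ in cofinite, G d μ z ≤ nrm z ^ α) :
    ∃ g : ℝ, 0 ≤ g ∧ ∀ᶠ n : ℕ in atTop, (C d n : ℝ) / μ ^ n ≤ (n : ℝ) ^ g := by
  obtain ⟨A0, c, hc, hball⟩ := ball_sum hμ0.le hη
  obtain ⟨m, hm⟩ : ∃ m : ℝ, m = max 0 ((d : ℝ) + α) := ⟨_, rfl⟩
  have hm0 : 0 ≤ m := by rw [hm]; exact le_max_left _ _
  rw [← hm] at hball
  obtain ⟨D, hD⟩ : ∃ D : ℝ, D = 2 * |A0| + 2 * c * (4 : ℝ) ^ (1 + m) := ⟨_, rfl⟩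
  refine ⟨θ * (1 + m) + 1, by positivity, ?_⟩
  have hbig : ∀ᶠ n : ℕ in atTop, D ≤ (n : ℝ) :=
    tendsto_natCast_atTop_atTop.eventually_ge_atTop D
  filter_upwards [markov hd hp hθθ hν, hbig, eventually_ge_atTop 1] with n h1 h2 hn
  have hn1 : (1 : ℝ) ≤ n := by exact_mod_cast hn
  have hn0 : (0 : ℝ) < n := by linarith
  have ht1 : 1 ≤ (n : ℝ) ^ θ := Real.one_le_rpow hn1 hθ0
  obtain ⟨R, hR⟩ : ∃ R : ℕ, R = ⌈(n : ℝ) ^ θ⌉₊ := ⟨_, rfl⟩
  have hR1 : (n : ℝ) ^ θ ≤ R := by rw [hR]; exact Nat.le_ceil _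
  have hR2 : (R : ℝ) < (n : ℝ) ^ θ + 1 := by rw [hR]; exact Nat.ceil_lt_add_one (by positivity)
  have hRpos : 1 ≤ R := by
    have : (1 : ℝ) ≤ R := ht1.trans hR1
    exact_mod_cast this
  obtain ⟨K, hK⟩ : ∃ K : ℕ, K = Nat.clog 2 R := ⟨_, rfl⟩
  have hK1 : R ≤ 2 ^ K := by rw [hK]; exact Nat.le_pow_clog (by norm_num) R
  have hK2 : 2 ^ K ≤ 2 * R := by
    rcases Nat.eq_zero_or_pos K with h | h
    · rw [h]; omega
    · have h3 : 2 ^ (Nat.clog 2 R).pred < R := by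
        apply Nat.pow_pred_clog_lt_self (by norm_num)
        by_contra hcon
        have h4 : R = 1 := by omega
        rw [hK, h4] at h
        simp at h
      rw [← hK] at h3
      have h5 : 2 ^ K = 2 * 2 ^ K.pred := by
        rw [← pow_succ']
        congr 1
        exact (Nat.succ_pred_eq_of_pos h).symm
      omega
  have hx1 : ((2 : ℝ) ^ K) ≤ 4 * (n : ℝ) ^ θ := by
    have h3 : ((2 ^ K : ℕ) : ℝ) ≤ ((2 * R : ℕ) : ℝ) := by exact_mod_cast hK2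
    push_cast at h3
    linarith
  have h3 : (C d n : ℝ) / μ ^ n ≤ 2 * ∑ z ∈ Bs d (2 ^ K), G d μ z := by
    rw [div_le_iff₀ (by positivity)]
    refine h1.trans ?_
    rw [mul_assoc]
    apply mul_le_mul_of_nonneg_left _ (by norm_num)
    have h4 : (((S d n).filter (fun ω => nrm (ω (Fin.last n)) ≤ (n : ℝ) ^ θ)).card : ℝ) ≤
        ∑ z ∈ Bs d (2 ^ K), (Cz d n z : ℝ) := by
      apply ball_count
      exact hR1.trans (by exact_mod_cast hK1)
    refine h4.trans ?_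
    have h5 := exchange hμ0.le hs {n} (Bs d (2 ^ K))
    rw [Finset.sum_singleton, div_le_iff₀ (by positivity)] at h5
    exact h5
  have h4 : ((K : ℝ) + 1) ≤ 2 ^ K := by
    have : K + 1 ≤ 2 ^ K := Nat.lt_two_pow_self
    exact_mod_cast this
  have h5 : (((2 : ℝ) ^ m) ^ K) = ((2 : ℝ) ^ K) ^ m := by
    rw [← Real.rpow_natCast, ← Real.rpow_natCast, ← Real.rpow_mul (by norm_num),
      ← Real.rpow_mul (by norm_num), mul_comm]
  have h6 : 1 ≤ (n : ℝ) ^ (θ * (1 + m)) := Real.one_le_rpow hn1 (by positivity)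
  calc (C d n : ℝ) / μ ^ n ≤ 2 * ∑ z ∈ Bs d (2 ^ K), G d μ z := h3
    _ ≤ 2 * (A0 + c * ((K : ℝ) + 1) * ((2 : ℝ) ^ m) ^ K) := by
        have := hball K
        linarith
    _ ≤ 2 * (|A0| + c * (2 ^ K) * ((2 : ℝ) ^ K) ^ m) := by
        rw [h5]
        have := le_abs_self A0
        gcongr
    _ = 2 * |A0| + 2 * c * ((2 : ℝ) ^ K) ^ (1 + m) := by
        rw [Real.rpow_add (by positivity), Real.rpow_one]
        ring
    _ ≤ 2 * |A0| + 2 * c * (4 * (n : ℝ) ^ θ) ^ (1 + m) := by gcongr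
    _ = 2 * |A0| + 2 * c * (4 : ℝ) ^ (1 + m) * (n : ℝ) ^ (θ * (1 + m)) := by
        rw [Real.mul_rpow (by norm_num) (by positivity), ← Real.rpow_mul hn0.le]
        ring
    _ ≤ 2 * |A0| * (n : ℝ) ^ (θ * (1 + m)) + 2 * c * (4 : ℝ) ^ (1 + m) * (n : ℝ) ^ (θ * (1 + m)) := by
        have : 0 ≤ 2 * |A0| := by positivity
        nlinarith
    _ = (n : ℝ) ^ (θ * (1 + m)) * D := by rw [hD]; ring
    _ ≤ (n : ℝ) ^ (θ * (1 + m)) * n := by gcongr
    _ = (n : ℝ) ^ (θ * (1 + m) + 1) := by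
        rw [Real.rpow_add hn0, Real.rpow_one]

lemma nu_nonneg (hd : 1 ≤ d) {ν : ℝ}
    (hν : ∀ p : ℝ, 0 < p →
      Tendsto (fun n : ℕ => Real.log (mom d p n) / Real.log n) atTop (𝓝 (p * ν))) : 0 ≤ ν := by
  have h1 : Tendsto (fun n : ℕ => Real.log (mom d 1 n) / Real.log n) atTop (𝓝 (1 * ν)) :=
    hν 1 one_pos
  rw [one_mul] at h1
  refine ge_of_tendsto h1 ?_
  filter_upwards [eventually_ge_atTop 2] with n hn
  have hm := one_le_mom hd one_pos (show 1 ≤ n by omega)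
  exact div_nonneg (Real.log_nonneg hm) (Real.log_nonneg (by exact_mod_cast (by omega : 1 ≤ n)))

theorem final_poly (hd : 1 ≤ d) {μ : ℝ}
    (hμ : Tendsto (fun n : ℕ => (C d n : ℝ) ^ (1 / (n : ℝ))) atTop (𝓝 μ))
    {ν η α : ℝ}
    (hν : ∀ p : ℝ, 0 < p →
      Tendsto (fun n : ℕ => Real.log (mom d p n) / Real.log n) atTop (𝓝 (p * ν)))
    (hs : ∀ᶠ z : Fin d → ℤ in cofinite, Summable fun n : ℕ => (Cz d n z : ℝ) / μ ^ n)
    (hη : Tendsto (fun z : Fin d → ℤ => Real.log (G d μ z) / Real.log (nrm z)) cofinite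
      (𝓝 (-((d : ℝ) - 2 + η))))
    (hα : ∀ ε : ℝ, 0 < ε → ∀ᶠ k : ℕ in atTop,
      ((2 * k : ℕ) : ℝ) ^ (α - 2 - ε) ≤ (A d (2 * k) : ℝ) / μ ^ (2 * k)) :
    α ≤ ν * max 0 (4 - d - 2 * η) := by
  have hμ1 := one_le_mu hd hμ
  have hμ0 : 0 < μ := by linarith
  have hs' := summable_all hμ0 hs
  have hν' : ∀ p : ℝ, 0 < p → ∀ ε : ℝ, 0 < ε →
      ∀ᶠ n : ℕ in atTop, mom d p n ≤ (n : ℝ) ^ (p * (ν + ε)) := by
    intro p hp ε hε
    have h1 := (hν p hp).eventually (gt_mem_nhds (show p * ν < p * (ν + ε) by nlinarith))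
    filter_upwards [h1, eventually_ge_atTop 2] with n h1 hn
    have hm := one_le_mom hd hp (show 1 ≤ n by omega)
    exact pow_upper (by exact_mod_cast (by omega : 1 < n)) (by linarith) h1 le_rfl
  have hη' : ∀ ε : ℝ, 0 < ε → ∀ᶠ z : Fin d → ℤ in cofinite,
      G d μ z ≤ nrm z ^ ((2 - η + ε) - d) := by
    intro ε hε
    have h1 := hη.eventually (gt_mem_nhds (show -((d : ℝ) - 2 + η) < (2 - η + ε) - d by linarith))
    filter_upwards [h1, nrm_gt_one] with z h1 hz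
    exact pow_upper hz (G_nonneg hμ0.le z) h1 le_rfl
  have hν0 : 0 ≤ ν := nu_nonneg hd hν
  obtain ⟨g, hg0, hg⟩ := poly_bound hd hμ0 hs' one_pos (show ν + 1 < ν + 2 by linarith)
    (by linarith) (hν' 1 one_pos 1 one_pos) (hη' 1 one_pos)
  have key : ∀ ε : ℝ, 0 < ε → 2 + (α - 2 - ε) ≤
      (ν + 2 * ε) * max 0 (2 * (2 - η + ε) - d) := by
    intro ε hε
    have hp : 0 < (2 + 2 * g) / ε := by positivity
    refine core_poly hd hμ hs' hp (show ν + ε < ν + 2 * ε by linarith) hg0 ?_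
      (hν' _ hp ε hε) (hη' ε hε) hg (hα ε hε)
    have e : (2 + 2 * g) / ε * (ν + 2 * ε - (ν + ε)) = 2 + 2 * g := by
      field_simp
      ring
    rw [e]
  have hF : Tendsto (fun ε : ℝ => 2 + (α - 2 - ε)) (𝓝[>] 0) (𝓝 α) := by
    have hcont : Continuous fun ε : ℝ => 2 + (α - 2 - ε) := by fun_prop
    have := (hcont.tendsto 0).mono_left (nhdsWithin_le_nhds (s := Set.Ioi 0))
    have e : 2 + (α - 2 - 0) = α := by ring
    rwa [e] at this
  have hG : Tendsto (fun ε : ℝ => (ν + 2 * ε) * max 0 (2 * (2 - η + ε) - d)) (𝓝[>] 0)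
      (𝓝 (ν * max 0 (4 - d - 2 * η))) := by
    have hcont : Continuous fun ε : ℝ => (ν + 2 * ε) * max 0 (2 * (2 - η + ε) - d) := by fun_prop
    have := (hcont.tendsto 0).mono_left (nhdsWithin_le_nhds (s := Set.Ioi 0))
    have e : (ν + 2 * 0) * max 0 (2 * (2 - η + 0) - (d : ℝ)) = ν * max 0 (4 - d - 2 * η) := by
      congr 1
      · ring
      · congr 1; ring
    rwa [e] at this
  refine le_of_tendsto_of_tendsto hF hG ?_
  filter_upwards [self_mem_nhdsWithin] with ε hε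
  exact key ε hε

end Pool.Agent.TH262.FI
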