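import Pool.Agent.TH262.FI.Core

/-!
# The two-point function is finite everywhere if it is finite at all but finitely many points
-/

set_option autoImplicit false

namespace Pool.Agent.TH262.FI

open Finset Filter Topology
open scoped Classical

variable {d : ℕ}

/-- walks through `y` at time `m` that end at `z` -/
lemma through (m j : ℕ) (y z : Fin d → ℤ) :
    ((S d (m + j)).filter (fun ω => ω (Fin.last (m + j)) = z ∧ ω ⟨m, by omega⟩ = y)).card ≤
      Cz d m y * Cz d j (z - y) := by
  rw [Cz_eq, Cz_eq, ← Finset.card_product]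
  apply Finset.card_le_card_of_injOn (fun ω => (pre m j ω, suf m j ω))
  · intro ω hω
    rw [Finset.mem_coe, Finset.mem_filter, mem_S] at hω
    obtain ⟨h1, h2, h3⟩ := hω
    rw [Finset.mem_coe, Finset.mem_product, Finset.mem_filter, Finset.mem_filter]
    refine ⟨⟨mem_S.2 (pre_saw h1), ?_⟩, ⟨mem_S.2 (suf_saw h1), ?_⟩⟩
    · exact h3
    · show suf m j ω (Fin.last j) = z - y
      unfold suf
      rw [h3]
      congr 1
  · intro ω _ ω' _ h
    exact cut_inj (congrArg Prod.fst h) (congrArg Prod.snd h)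

/-- the near points of `z` -/
noncomputable def near (M : ℕ) (z : Fin d → ℤ) : Finset (Fin d → ℤ) :=
  Fintype.piFinset fun k : Fin d => Finset.Icc (z k - M) (z k + M)

lemma coord_diff {n : ℕ} {ω : Fin (n + 1) → Fin d → ℤ} (h : IsSAW d n ω) {m j : ℕ}
    (hmj : m + j = n) (k : Fin d) : |ω (Fin.last n) k - ω ⟨m, by omega⟩ k| ≤ j := by
  subst hmj
  have h1 := coord_le (suf_saw h) (Fin.last j) k
  exact h1

lemma step_bound {n M : ℕ} (hMn : M ≤ n) (Z : Finset (Fin d → ℤ)) (hZ : Z.card ≤ M)
    (z : Fin d → ℤ) :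
    Cz d n z ≤ ∑ j ∈ Finset.range (M + 1), ∑ y ∈ (near M z) \ Z, Cz d (n - j) y * Cz d j (z - y) := by
  have h1 : (S d n).filter (fun ω => ω (Fin.last n) = z) ⊆
      (Finset.range (M + 1)).biUnion (fun j => ((near M z) \ Z).biUnion fun y =>
        (S d n).filter (fun ω => ω (Fin.last n) = z ∧ ω ⟨n - j, by omega⟩ = y)) := by
    intro ω hω
    rw [Finset.mem_filter, mem_S] at hω
    obtain ⟨hs, hz⟩ := hω
    -- one of the last `M + 1` points is not in `Z`
    obtain ⟨j, hj, hjZ⟩ : ∃ j ∈ Finset.range (M + 1), ω ⟨n - j, by omega⟩ ∉ Z := by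
      by_contra hcon
      push Not at hcon
      have h2 : (Finset.range (M + 1)).card ≤ Z.card := by
        apply Finset.card_le_card_of_injOn (fun j => ω ⟨n - j, by omega⟩)
        · intro j hj
          exact hcon j (Finset.mem_coe.1 hj)
        · intro i hi j hj hij
          rw [Finset.mem_coe, Finset.mem_range] at hi hj
          have h3 := hs.2.2 hij
          simp only [Fin.mk.injEq] at h3
          omega
      rw [Finset.card_range] at h2
      omega
    have hjM := Finset.mem_range.1 hj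
    rw [Finset.mem_biUnion]
    refine ⟨j, hj, ?_⟩
    rw [Finset.mem_biUnion]
    refine ⟨ω ⟨n - j, by omega⟩, ?_, ?_⟩
    · rw [Finset.mem_sdiff]
      refine ⟨Fintype.mem_piFinset.2 fun k => ?_, hjZ⟩
      have h4 := coord_diff hs (show (n - j) + j = n by omega) k
      rw [hz] at h4
      have h5 := abs_le.1 h4
      have h6 : (j : ℤ) ≤ M := by omega
      exact Finset.mem_Icc.2 ⟨by linarith [h5.2], by linarith [h5.1]⟩
    · rw [Finset.mem_filter, mem_S]
      exact ⟨hs, hz, rfl⟩
  rw [Cz_eq]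
  refine (Finset.card_le_card h1).trans (Finset.card_biUnion_le.trans ?_)
  refine Finset.sum_le_sum fun j hj => ?_
  refine Finset.card_biUnion_le.trans ?_
  refine Finset.sum_le_sum fun y _ => ?_
  have hjM := Finset.mem_range.1 hj
  obtain ⟨m, rfl⟩ : ∃ m, n = m + j := ⟨n - j, by omega⟩
  have h2 := through (d := d) m j y z
  have e : m + j - j = m := by omega
  simp only [e]
  exact h2

/-- **finiteness everywhere** -/
theorem summable_all {μ : ℝ} (hμ : 0 < μ)
    (h : ∀ᶠ z : Fin d → ℤ in cofinite, Summable fun n : ℕ => (Cz d n z : ℝ) / μ ^ n)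
    (z : Fin d → ℤ) : Summable fun n : ℕ => (Cz d n z : ℝ) / μ ^ n := by
  obtain ⟨Z, hZ⟩ : ∃ Z : Finset (Fin d → ℤ), ∀ z, z ∉ Z →
      Summable fun n : ℕ => (Cz d n z : ℝ) / μ ^ n := by
    refine ⟨(Filter.eventually_cofinite.1 h).toFinset, fun z hz => ?_⟩
    by_contra hcon
    apply hz
    rw [Set.Finite.mem_toFinset]
    exact hcon
  obtain ⟨M, hM⟩ : ∃ M, M = Z.card := ⟨_, rfl⟩
  rw [← summable_nat_add_iff M]
  -- the majorant
  have hmaj : Summable fun n : ℕ => ∑ j ∈ Finset.range (M + 1), ∑ y ∈ (near M z) \ Z,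
      ((Cz d (n + M - j) y : ℝ) / μ ^ (n + M - j)) * ((Cz d j (z - y) : ℝ) / μ ^ j) := by
    apply summable_sum
    intro j hj
    apply summable_sum
    intro y hy
    apply Summable.mul_right
    have h1 := hZ y (Finset.mem_sdiff.1 hy).2
    have hjM := Finset.mem_range.1 hj
    have h2 := (summable_nat_add_iff (M - j)).2 h1
    refine h2.congr fun n => ?_
    have e : n + (M - j) = n + M - j := by omega
    rw [e]
  refine Summable.of_nonneg_of_le (fun n => by positivity) (fun n => ?_) hmaj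
  have h1 := step_bound (d := d) (show M ≤ n + M by omega) Z hM.ge z
  have h2 : (Cz d (n + M) z : ℝ) ≤ ∑ j ∈ Finset.range (M + 1), ∑ y ∈ (near M z) \ Z,
      (Cz d (n + M - j) y : ℝ) * (Cz d j (z - y) : ℝ) := by exact_mod_cast h1
  rw [div_le_iff₀ (by positivity)]
  refine h2.trans (le_of_eq ?_)
  rw [Finset.sum_mul]
  refine Finset.sum_congr rfl fun j hj => ?_
  rw [Finset.sum_mul]
  refine Finset.sum_congr rfl fun y _ => ?_
  have hjM := Finset.mem_range.1 hj
  have e : μ ^ (n + M) = μ ^ (n + M - j) * μ ^ j := by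
    rw [← pow_add]; congr 1; omega
  rw [e]
  field_simp

end Pool.Agent.TH262.FI
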